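import Pool.Agent.H649S.Path

/-!
Alternating paths: deterministic part.
-/

set_option autoImplicit false
set_option linter.unusedSectionVars false

open MeasureTheory Set
open scoped ENNReal

namespace Pool.Agent.H649S

variable {d : ℕ} {Lab : Type} [MeasurableSpace Lab] (lam : Measure Lab) [IsProbabilityMeasure lam]
variable (tau : (FreeGroup (Fin d) → Lab) → (Fin d × Bool → Fin (2 * d)))

/-- undetermined configurations with two infinite directions -/
def Kn (n : ℕ) : Set (FreeGroup (Fin d) → Lab) :=
  {x | x ∈ En lam tau n ∧ ∃ a b, a ≠ b ∧ Inf (En lam tau n) x a ∧ Inf (En lam tau n) x b}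

/-- undetermined configurations with three infinite directions -/
def Sn (n : ℕ) : Set (FreeGroup (Fin d) → Lab) :=
  {x | x ∈ En lam tau n ∧ ∃ a b c, a ≠ b ∧ a ≠ c ∧ b ≠ c ∧ Inf (En lam tau n) x a ∧
    Inf (En lam tau n) x b ∧ Inf (En lam tau n) x c}

/-- configurations from which the path along the colours `al, be, al, be, …` of length `k`
ends in `B` -/
def Alt : ℕ → Fin (2 * d) → Fin (2 * d) → Set (FreeGroup (Fin d) → Lab) →
    Set (FreeGroup (Fin d) → Lab)
  | 0, _, _, B => B
  | k + 1, al, be, B => {x | ∃ l, tau x l = al ∧ shl l x ∈ Alt k be al B}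

variable {tau}

/-- one step from a vertex with a unique forward difference edge -/
theorem kempe {x x' : FreeGroup (Fin d) → Lab} {w : List (Fin d × Bool)}
    (h : PairOK lam tau x x' w) (hw : w ≠ [])
    {l : Fin d × Bool} (hl : w.head? ≠ some l) (hd : tau x l ≠ tau x' l)
    (huniq : ∀ a b, a ≠ bar l → b ≠ bar l → tau (shl l x) a ≠ tau (shl l x') a →
      tau (shl l x) b ≠ tau (shl l x') b → a = b) :
    ∃ l', l' ≠ bar l ∧ tau (shl l x) l' = tau x' l ∧ tau (shl l x') l' = tau x l := by
  have hs := h.step lam hw hl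
  have hd' : tau (shl l x) (bar l) ≠ tau (shl l x') (bar l) := by
    rw [h.cons1 lam l, h.cons2 lam l]; exact hd
  obtain ⟨l', hne, hl'⟩ := hs.two lam hd'
  have i1 := hs.i1 1
  have i2 := hs.i2 1
  rw [sh_one] at i1 i2
  have hall : ∀ k, tau (shl l x) k ≠ tau (shl l x') k → k = bar l ∨ k = l' := by
    intro k hk
    by_cases hkl : k = bar l
    · exact Or.inl hkl
    · exact Or.inr (huniq k l' hkl hne hk hl')
  have e1 := swap_two i1 i2 hd' hall
  have e2 := swap_two i2 i1 hd'.symm (fun k hk => hall k hk.symm)
  refine ⟨l', hne, ?_, ?_⟩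
  · rw [e1, h.cons2 lam l]
  · rw [e2, h.cons1 lam l]

/-- paths that start in the core -/
theorem core_path {n : ℕ} (m : ℕ) : ∀ {x x' : FreeGroup (Fin d) → Lab}
    {w : List (Fin d × Bool)} (_ : PairOK lam tau x x' w) (_ : w ≠ []) (_ : n ≤ w.length)
    {N : ℕ} (_ : N ≤ w.length)
    {l : Fin d × Bool} (_ : w.head? ≠ some l) (_ : tau x l ≠ tau x' l)
    (_ : ∃ l₂, l₂ ≠ l ∧ Inf (En lam tau n) x l₂),
    (∃ t, 1 ≤ t ∧ t ≤ m ∧ x ∈ Alt tau t (tau x l) (tau x' l) (Sn lam tau n)) ∨
      x ∈ Alt tau m (tau x l) (tau x' l) (En lam tau (N + m)) := by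
  induction m with
  | zero =>
    intro x x' w h hw hn N hN l hl hd _
    right
    exact h.mem lam hw hN (fun e => hd (by rw [e]))
  | succ m ih =>
    intro x x' w h hw hn N hN l hl hd ⟨l₂, hl₂, hinf₂⟩
    have hs := h.step lam hw hl
    have hxE : x ∈ En lam tau n := h.mem lam hw hn (fun e => hd (by rw [e]))
    have hd' : tau (shl l x) (bar l) ≠ tau (shl l x') (bar l) := by
      rw [h.cons1 lam l, h.cons2 lam l]; exact hd
    have hyE : shl l x ∈ En lam tau n :=
      hs.mem lam (by simp) (by simp; omega) (fun e => hd' (by rw [e]))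
    have hback : Inf (En lam tau n) (shl l x) (bar l) := Inf.back hxE hl₂ hinf₂
    have hfor : ∀ a, a ≠ bar l → tau (shl l x) a ≠ tau (shl l x') a →
        Inf (En lam tau n) (shl l x) a := by
      intro a ha had
      refine hs.inf lam (by simp) (by simp; omega) ?_ had
      simp only [List.head?_cons, ne_eq, Option.some.injEq]
      exact fun e => ha e.symm
    by_cases hS : shl l x ∈ Sn lam tau n
    · left
      exact ⟨1, le_rfl, by omega, l, rfl, hS⟩
    · have huniq : ∀ a b, a ≠ bar l → b ≠ bar l → tau (shl l x) a ≠ tau (shl l x') a →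
          tau (shl l x) b ≠ tau (shl l x') b → a = b := by
        intro a b ha hb had hbd
        by_contra hab
        exact hS ⟨hyE, bar l, a, b, ha.symm, hb.symm, hab, hback, hfor a ha had, hfor b hb hbd⟩
      obtain ⟨l', hne, e1, e2⟩ := kempe lam h hw hl hd huniq
      have hd2 : tau (shl l x) l' ≠ tau (shl l x') l' := by
        rw [e1, e2]; exact hd.symm
      have hhead : (bar l :: w).head? ≠ some l' := by
        simp only [List.head?_cons, ne_eq, Option.some.injEq]
        exact fun e => hne e.symm
      rcases ih hs (by simp) (by simp; omega) (N := N + 1) (by simp; omega) hhead hd2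
        ⟨bar l, hne.symm, hback⟩ with ⟨t, h1, h2, h3⟩ | h3
      · left
        refine ⟨t + 1, by omega, by omega, l, rfl, ?_⟩
        rw [e1, e2] at h3
        exact h3
      · right
        refine ⟨l, rfl, ?_⟩
        rw [e1, e2] at h3
        have : N + 1 + m = N + (m + 1) := by omega
        rw [this] at h3
        exact h3

/-- all paths, followed until they reach the core -/
theorem pend_path {n : ℕ} (m : ℕ) : ∀ {x x' : FreeGroup (Fin d) → Lab}
    {w : List (Fin d × Bool)} (_ : PairOK lam tau x x' w) (_ : w ≠ []) (_ : n ≤ w.length)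
    {N : ℕ} (_ : N ≤ w.length)
    {l : Fin d × Bool} (_ : w.head? ≠ some l) (_ : tau x l ≠ tau x' l),
    (∃ t, 1 ≤ t ∧ t ≤ m ∧ x ∈ Alt tau t (tau x l) (tau x' l) (Kn lam tau n)) ∨
      x ∈ Alt tau m (tau x l) (tau x' l) (En lam tau (N + m)) := by
  induction m with
  | zero =>
    intro x x' w h hw hn N hN l hl hd
    right
    exact h.mem lam hw hN (fun e => hd (by rw [e]))
  | succ m ih =>
    intro x x' w h hw hn N hN l hl hd
    have hs := h.step lam hw hl
    have hd' : tau (shl l x) (bar l) ≠ tau (shl l x') (bar l) := by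
      rw [h.cons1 lam l, h.cons2 lam l]; exact hd
    have hyE : shl l x ∈ En lam tau n :=
      hs.mem lam (by simp) (by simp; omega) (fun e => hd' (by rw [e]))
    have hfor : ∀ a, a ≠ bar l → tau (shl l x) a ≠ tau (shl l x') a →
        Inf (En lam tau n) (shl l x) a := by
      intro a ha had
      refine hs.inf lam (by simp) (by simp; omega) ?_ had
      simp only [List.head?_cons, ne_eq, Option.some.injEq]
      exact fun e => ha e.symm
    by_cases hK : shl l x ∈ Kn lam tau n
    · left
      exact ⟨1, le_rfl, by omega, l, rfl, hK⟩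
    · have huniq : ∀ a b, a ≠ bar l → b ≠ bar l → tau (shl l x) a ≠ tau (shl l x') a →
          tau (shl l x) b ≠ tau (shl l x') b → a = b := by
        intro a b ha hb had hbd
        by_contra hab
        exact hK ⟨hyE, a, b, hab, hfor a ha had, hfor b hb hbd⟩
      obtain ⟨l', hne, e1, e2⟩ := kempe lam h hw hl hd huniq
      have hd2 : tau (shl l x) l' ≠ tau (shl l x') l' := by
        rw [e1, e2]; exact hd.symm
      have hhead : (bar l :: w).head? ≠ some l' := by
        simp only [List.head?_cons, ne_eq, Option.some.injEq]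
        exact fun e => hne e.symm
      rcases ih hs (by simp) (by simp; omega) (N := N + 1) (by simp; omega) hhead hd2 with
        ⟨t, h1, h2, h3⟩ | h3
      · left
        refine ⟨t + 1, by omega, by omega, l, rfl, ?_⟩
        rw [e1, e2] at h3
        exact h3
      · right
        refine ⟨l, rfl, ?_⟩
        rw [e1, e2] at h3
        have : N + 1 + m = N + (m + 1) := by omega
        rw [this] at h3
        exact h3

/-- a neighbor of a core point in an infinite direction is in the core -/
theorem Kn_next {n : ℕ} {x : FreeGroup (Fin d) → Lab} (hx : x ∈ Kn lam tau n)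
    {l : Fin d × Bool} (hl : Inf (En lam tau n) x l) : shl l x ∈ Kn lam tau n := by
  obtain ⟨hxE, a, b, hab, ha, hb⟩ := hx
  obtain ⟨l', hne, hl'⟩ := hl.next
  have hback : Inf (En lam tau n) (shl l x) (bar l) := by
    by_cases h : a = l
    · exact Inf.back hxE (fun e => hab (by rw [h, e])) hb
    · exact Inf.back hxE h ha
  exact ⟨hl.mem, l', bar l, hne, hl', hback⟩

end Pool.Agent.H649S
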