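import Pool.Agent.H649S.MI2

/-!
Approximation of events by events that depend on finitely many labels.
-/

set_option autoImplicit false
set_option linter.unusedSectionVars false

open MeasureTheory Set
open scoped ENNReal Topology

namespace Pool.Agent.H649S

section Ap

variable {V Lab : Type} [MeasurableSpace Lab] (lam : Measure Lab) [IsProbabilityMeasure lam]

/-- `K` is approximable by events depending on finitely many labels -/
def Ap (K : Set (V → Lab)) : Prop :=
  ∀ ε : ℝ, 0 < ε → ∃ (K' : Set (V → Lab)) (W : Finset V),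
    MeasurableSet K' ∧ Dep K' (W : Set V) ∧ (bm V lam).real (symmDiff K K') ≤ ε

theorem Ap.compl {K : Set (V → Lab)} (h : Ap lam K) : Ap lam Kᶜ := by
  intro ε hε
  obtain ⟨K', W, h1, h2, h3⟩ := h ε hε
  refine ⟨K'ᶜ, W, h1.compl, h2.compl, ?_⟩
  rw [compl_symmDiff_compl]
  exact h3

theorem Ap.union {K L : Set (V → Lab)} (h : Ap lam K) (h' : Ap lam L) : Ap lam (K ∪ L) := by
  classical
  intro ε hε
  obtain ⟨K', W, h1, h2, h3⟩ := h (ε / 2) (by linarith)
  obtain ⟨L', W', h1', h2', h3'⟩ := h' (ε / 2) (by linarith)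
  refine ⟨K' ∪ L', W ∪ W', h1.union h1', ?_, ?_⟩
  · have a1 : Dep K' ((W ∪ W' : Finset V) : Set V) :=
      h2.mono (by intro v hv; simp only [Finset.coe_union]; exact Or.inl hv)
    have a2 : Dep L' ((W ∪ W' : Finset V) : Set V) :=
      h2'.mono (by intro v hv; simp only [Finset.coe_union]; exact Or.inr hv)
    exact fun x y hxy => or_congr (a1 x y hxy) (a2 x y hxy)
  · have hsub : symmDiff (K ∪ L) (K' ∪ L') ⊆ symmDiff K K' ∪ symmDiff L L' := by
      intro x hx
      simp only [Set.mem_symmDiff, Set.mem_union] at hx ⊢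
      tauto
    calc (bm V lam).real (symmDiff (K ∪ L) (K' ∪ L'))
        ≤ (bm V lam).real (symmDiff K K' ∪ symmDiff L L') := measureReal_mono hsub
      _ ≤ (bm V lam).real (symmDiff K K') + (bm V lam).real (symmDiff L L') :=
          measureReal_union_le _ _
      _ ≤ ε := by linarith

theorem Ap_cyl {K : Set (V → Lab)} (h : K ∈ measurableCylinders (fun _ : V => Lab)) :
    Ap lam K := by
  intro ε hε
  obtain ⟨s, S, hS, rfl⟩ := (mem_measurableCylinders K).mp h
  refine ⟨cylinder s S, s, hS.cylinder s, ?_, ?_⟩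
  · intro x y hxy
    simp only [mem_cylinder]
    have : s.restrict x = s.restrict y := by
      funext i
      exact hxy i.1 i.2
    rw [this]
  · simp [hε.le]

theorem Ap_iUnion {f : ℕ → Set (V → Lab)} (hm : ∀ n, MeasurableSet (f n))
    (h : ∀ n, Ap lam (f n)) : Ap lam (⋃ n, f n) := by
  intro ε hε
  have hacc : ∀ N, Ap lam (Set.accumulate f N) := by
    intro N
    induction N with
    | zero =>
      have : Set.accumulate f 0 = f 0 := by simp
      rw [this]; exact h 0
    | succ n ih =>
      have : Set.accumulate f (n + 1) = Set.accumulate f n ∪ f (n + 1) := by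
        rw [Set.accumulate_succ]
      rw [this]; exact ih.union lam (h _)
  have hmacc : ∀ N, MeasurableSet (Set.accumulate f N) :=
    fun N => MeasurableSet.biUnion (Set.to_countable _) fun n _ => hm n
  have hlim : Filter.Tendsto (fun N => (bm V lam).real (Set.accumulate f N)) Filter.atTop
      (𝓝 ((bm V lam).real (⋃ n, f n))) := by
    have := tendsto_measure_iUnion_accumulate (μ := bm V lam) (f := f)
    exact (ENNReal.tendsto_toReal (measure_ne_top _ _)).comp this
  have hev := (hlim.eventually (lt_mem_nhds (show (bm V lam).real (⋃ n, f n) - ε / 2 <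
    (bm V lam).real (⋃ n, f n) by linarith))).exists
  obtain ⟨N, hN⟩ := hev
  obtain ⟨K', W, h1, h2, h3⟩ := hacc N (ε / 2) (by linarith)
  refine ⟨K', W, h1, h2, ?_⟩
  have hsubacc : Set.accumulate f N ⊆ ⋃ n, f n := by
    intro x hx
    obtain ⟨n, -, hn⟩ := Set.mem_iUnion₂.mp hx
    exact Set.mem_iUnion.mpr ⟨n, hn⟩
  have hsub : symmDiff (⋃ n, f n) K' ⊆
      ((⋃ n, f n) \ Set.accumulate f N) ∪ symmDiff (Set.accumulate f N) K' := by
    intro x hx
    rcases hx with ⟨hx, hx'⟩ | ⟨hx, hx'⟩
    · by_cases hh : x ∈ Set.accumulate f N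
      · exact Or.inr (Or.inl ⟨hh, hx'⟩)
      · exact Or.inl ⟨hx, hh⟩
    · exact Or.inr (Or.inr ⟨hx, fun hh => hx' (hsubacc hh)⟩)
  have hdiff : (bm V lam).real ((⋃ n, f n) \ Set.accumulate f N) ≤ ε / 2 := by
    rw [measureReal_sdiff hsubacc (hmacc N)]
    linarith
  calc (bm V lam).real (symmDiff (⋃ n, f n) K')
      ≤ (bm V lam).real (((⋃ n, f n) \ Set.accumulate f N) ∪ symmDiff (Set.accumulate f N) K') :=
        measureReal_mono hsub
    _ ≤ _ := measureReal_union_le _ _
    _ ≤ ε := by linarith

theorem Ap_of_measurable {K : Set (V → Lab)} (hK : MeasurableSet K) : Ap lam K := by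
  have hgen : (MeasurableSpace.pi : MeasurableSpace (V → Lab)) =
      MeasurableSpace.generateFrom (measurableCylinders (fun _ : V => Lab)) :=
    generateFrom_measurableCylinders.symm
  suffices h : MeasurableSet K ∧ Ap lam K from h.2
  rw [hgen] at hK
  induction K, hK using MeasurableSpace.generateFrom_induction with
  | hC t ht _ => exact ⟨MeasurableSet.of_mem_measurableCylinders ht, Ap_cyl lam ht⟩
  | empty => exact ⟨MeasurableSet.empty, Ap_cyl lam (empty_mem_measurableCylinders _)⟩
  | compl t _ ih => exact ⟨ih.1.compl, ih.2.compl lam⟩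
  | iUnion s _ ih => exact ⟨MeasurableSet.iUnion fun n => (ih n).1,
      Ap_iUnion lam (fun n => (ih n).1) fun n => (ih n).2⟩

end Ap

end Pool.Agent.H649S
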