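import Mathlib

/-!
The numerical recursion.
-/

set_option autoImplicit false

namespace Pool.Agent.H649S

theorem rec_aux (ell u b : ℕ → ℝ) (K c A : ℝ) (hK : 1 ≤ K) (hc : 0 ≤ c) (hcK : c ≤ K)
    (hA : 4 * K ≤ A) (hu : Monotone u) (hu1 : 1 / 4 ≤ u 1)
    (hell1 : ell 1 ≤ c) (hstep : ∀ n, 1 ≤ n → ell (n + 1) ≤ ell n + c)
    (hbig : ∀ n m : ℕ, 1 ≤ n → 1 ≤ m → K * (m : ℝ) ≤ ell n → ell (n + m) ≤ ell n + b m)
    (hb : ∀ N m : ℕ, 1 ≤ m → m ≤ N → b m ≤ A ^ 2 * u N / (8 * K)) :
    ∀ N : ℕ, 1 ≤ N → ell N ≤ A * Real.sqrt (N * u N) := by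
  have hstep' : ∀ n m : ℕ, 1 ≤ n → ell (n + m) ≤ ell n + m * c := by
    intro n m hn
    induction m with
    | zero => simp
    | succ m ih =>
      have := hstep (n + m) (by omega)
      rw [← add_assoc]
      push_cast
      linarith
  have htriv : ∀ N : ℕ, 1 ≤ N → ell N ≤ N * c := by
    intro N hN
    have := hstep' 1 (N - 1) le_rfl
    have e : 1 + (N - 1) = N := by omega
    rw [e] at this
    have h2 : ((N - 1 : ℕ) : ℝ) = (N : ℝ) - 1 := by
      push_cast [Nat.cast_sub hN]; ring
    rw [h2] at this
    linarith
  intro N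
  induction N using Nat.strong_induction_on with
  | _ N ih =>
    intro hN
    have hN1 : (1 : ℝ) ≤ N := by exact_mod_cast hN
    have huN : 1 / 4 ≤ u N := hu1.trans (hu hN)
    have hNu : 1 / 4 ≤ N * u N := by nlinarith
    have hs : 1 / 2 ≤ Real.sqrt (N * u N) := by
      rw [Real.le_sqrt' (by norm_num)]
      norm_num
      linarith
    set s := Real.sqrt (N * u N) with hsdef
    have hs2 : s ^ 2 = N * u N := Real.sq_sqrt (by linarith)
    have hApos : 0 < A := by linarith
    have hKpos : 0 < K := by linarith
    have harg : 1 ≤ A * s / (2 * K) := by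
      rw [le_div_iff₀ (by positivity)]
      nlinarith
    set m := ⌊A * s / (2 * K)⌋₊ with hm
    have hm1 : 1 ≤ m := Nat.one_le_floor_iff _ |>.mpr harg
    have hmle : (m : ℝ) ≤ A * s / (2 * K) := Nat.floor_le (by linarith)
    have hmlt : A * s / (2 * K) < m + 1 := Nat.lt_floor_add_one _
    have hm1' : (1 : ℝ) ≤ m := by exact_mod_cast hm1
    have hmge : A * s / (4 * K) ≤ m := by
      have : A * s / (4 * K) = (A * s / (2 * K)) / 2 := by
        field_simp; ring
      rw [this]
      linarith
    have hmle2 : 2 * K * m ≤ A * s := by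
      rw [le_div_iff₀ (by positivity)] at hmle
      linarith
    by_cases hmN : N ≤ m
    · have h1 := htriv N hN
      have h2 : (N : ℝ) ≤ m := by exact_mod_cast hmN
      nlinarith
    · rw [not_le] at hmN
      have hn1 : 1 ≤ N - m := by omega
      have e : N - m + m = N := by omega
      by_cases hbg : K * m ≤ ell (N - m)
      · have h1 := hbig (N - m) m hn1 hm1 hbg
        rw [e] at h1
        have h2 := ih (N - m) (by omega) hn1
        have h3 := hb N m hm1 hmN.le
        have hcast : ((N - m : ℕ) : ℝ) = (N : ℝ) - m := by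
          push_cast [Nat.cast_sub hmN.le]; ring
        have hmN' : (m : ℝ) < N := by exact_mod_cast hmN
        -- square root comparison
        have h4 : Real.sqrt (((N - m : ℕ) : ℝ) * u (N - m)) ≤ s - m * u N / (2 * s) := by
          have h5 : ((N - m : ℕ) : ℝ) * u (N - m) ≤ ((N : ℝ) - m) * u N := by
            rw [hcast]
            exact mul_le_mul_of_nonneg_left (hu (Nat.sub_le N m)) (by linarith)
          refine (Real.sqrt_le_sqrt h5).trans ?_
          have hpos : 0 ≤ s - m * u N / (2 * s) := by
            rw [sub_nonneg, div_le_iff₀ (by positivity)]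
            nlinarith
          rw [Real.sqrt_le_left hpos]
          have h6 : (s - m * u N / (2 * s)) ^ 2 =
              s ^ 2 - m * u N + (m * u N / (2 * s)) ^ 2 := by
            have : s ≠ 0 := by linarith
            field_simp
            ring
          rw [h6, hs2]
          nlinarith [sq_nonneg (m * u N / (2 * s))]
        have h7 : A ^ 2 * u N / (8 * K) ≤ A * (m * u N / (2 * s)) := by
          have h8 : A * (A * s / (4 * K)) * u N / (2 * s) = A ^ 2 * u N / (8 * K) := by
            have : s ≠ 0 := by linarith
            field_simp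
            ring
          rw [← h8]
          have h9 : A * (A * s / (4 * K)) * u N ≤ A * m * u N := by
            apply mul_le_mul_of_nonneg_right _ (by linarith)
            exact mul_le_mul_of_nonneg_left hmge hApos.le
          have h10 : A * (m * u N / (2 * s)) = A * m * u N / (2 * s) := by ring
          rw [h10]
          exact div_le_div_of_nonneg_right h9 (by linarith)
        have h11 : A * Real.sqrt (((N - m : ℕ) : ℝ) * u (N - m)) ≤
            A * (s - m * u N / (2 * s)) := mul_le_mul_of_nonneg_left h4 hApos.le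
        linarith
      · rw [not_le] at hbg
        have h1 := hstep' (N - m) m hn1
        rw [e] at h1
        nlinarith

end Pool.Agent.H649S
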