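import Pool.Agent.H649S.Start
import Pool.Agent.H649S.Rec

/-!
The lower bound for the probability of being undetermined.
-/

set_option autoImplicit false
set_option linter.unusedSectionVars false

open MeasureTheory Set
open scoped ENNReal

namespace Pool.Agent.H649S

variable {d : ℕ} {Lab : Type} [MeasurableSpace Lab] (lam : Measure Lab) [IsProbabilityMeasure lam]
variable {tau : (FreeGroup (Fin d) → Lab) → (Fin d × Bool → Fin (2 * d))}

theorem Col.pos (h : Col lam tau) (hd : 1 ≤ d) (n : ℕ) (hn : 1 ≤ n) :
    0 < (bm (FreeGroup (Fin d)) lam).real (En lam tau n) := by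
  have hD : (0 : ℝ) < ((2 * d : ℕ) : ℝ) := by
    have : 0 < 2 * d := by omega
    exact_mod_cast this
  induction n, hn using Nat.le_induction with
  | base => have := h.start lam hd; linarith
  | succ n hn ih =>
    have := h.ineq1 lam n
    by_contra hcon
    have h0 : (bm (FreeGroup (Fin d)) lam).real (En lam tau (n + 1)) = 0 :=
      le_antisymm (not_lt.mp hcon) measureReal_nonneg
    rw [h0, mul_zero] at this
    linarith

/-- the constant -/
noncomputable def cK (d : ℕ) : ℝ := 4 * (3 * d + 1) * ((2 * d : ℕ) : ℝ) ^ 2

theorem Col.bound (h : Col lam tau) (hd : 1 ≤ d) (n : ℕ) (hn : 1 ≤ n) :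
    Real.exp (- (4 * cK d) * Real.sqrt (n * Real.log (n + 1))) ≤
      (bm (FreeGroup (Fin d)) lam).real (En lam tau n) := by
  set D : ℝ := ((2 * d : ℕ) : ℝ) with hD
  have hd1 : (1 : ℝ) ≤ d := by exact_mod_cast hd
  have hD2 : 2 ≤ D := by rw [hD]; push_cast; linarith
  set K := cK d with hKdef
  have hKD : 32 * D ≤ K := by
    rw [hKdef]; unfold cK
    rw [← hD]
    have h1 : (16 : ℝ) * D ^ 2 ≤ 4 * (3 * d + 1) * D ^ 2 := by
      apply mul_le_mul_of_nonneg_right _ (by positivity)
      linarith
    nlinarith
  have hpos := h.pos lam hd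
  have hlogD : Real.log D ≤ D - 1 := Real.log_le_sub_one_of_pos (by linarith)
  have hlog2 : (1 : ℝ) / 2 ≤ Real.log 2 := by
    have := Real.log_two_gt_d9; linarith
  have key := rec_aux (fun n => - Real.log ((bm (FreeGroup (Fin d)) lam).real (En lam tau n)))
    (fun N => Real.log ((N : ℝ) + 1)) (fun m => Real.log (3 * m * D ^ 4)) K (Real.log D) (4 * K)
    (by linarith) (Real.log_nonneg (by linarith)) (by linarith) le_rfl
    (by
      intro a b hab
      have : (a : ℝ) ≤ b := by exact_mod_cast hab
      exact Real.log_le_log (by positivity) (by linarith))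
    (by
      have : ((1 : ℕ) : ℝ) + 1 = 2 := by norm_num
      rw [this]; linarith)
    (by
      have h1 := h.start lam hd
      have h2 := Real.log_le_log (by norm_num) h1
      have h3 : Real.log (1 / 2) = - Real.log 2 := by
        rw [one_div, Real.log_inv]
      have h4 : Real.log 2 ≤ Real.log D := Real.log_le_log (by norm_num) hD2
      show - Real.log _ ≤ Real.log D
      linarith)
    (by
      intro n hn
      have h1 := Real.log_le_log (hpos n hn) (h.ineq1 lam n)
      rw [Real.log_mul (by positivity) (hpos (n + 1) (by omega)).ne'] at h1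
      show - Real.log _ ≤ - Real.log _ + Real.log D
      linarith)
    (by
      intro n m hn hm hs
      have hs' : 4 * (3 * d + 1) * m * ((2 * d : ℕ) : ℝ) ^ 2 ≤
          - Real.log ((bm (FreeGroup (Fin d)) lam).real (En lam tau n)) := by
        refine le_trans (le_of_eq ?_) hs
        rw [hKdef]; unfold cK; ring
      have h1 := Real.log_le_log (hpos n hn) (h.recur lam hd n m hm hs')
      have hm1 : (1 : ℝ) ≤ m := by exact_mod_cast hm
      rw [Real.log_mul (by positivity) (hpos (n + m) (by omega)).ne'] at h1
      show - Real.log _ ≤ - Real.log _ + Real.log (3 * m * D ^ 4)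
      linarith)
    (by
      intro N m hm hmN
      have hm1 : (1 : ℝ) ≤ m := by exact_mod_cast hm
      have hmN' : (m : ℝ) ≤ N := by exact_mod_cast hmN
      have e1 : (4 * K) ^ 2 * Real.log ((N : ℝ) + 1) / (8 * K) = 2 * K * Real.log ((N : ℝ) + 1) := by
        have : K ≠ 0 := by linarith
        field_simp
        ring
      show Real.log (3 * m * D ^ 4) ≤ (4 * K) ^ 2 * Real.log ((N : ℝ) + 1) / (8 * K)
      rw [e1]
      have e2 : Real.log (3 * m * D ^ 4) = Real.log 3 + Real.log m + 4 * Real.log D := by
        rw [Real.log_mul (by positivity) (by positivity), Real.log_mul (by norm_num) (by positivity),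
          Real.log_pow]
        push_cast
        ring
      rw [e2]
      have h3 : Real.log 3 ≤ 2 := by
        have := Real.log_le_sub_one_of_pos (show (0 : ℝ) < 3 by norm_num)
        linarith
      have h4 : Real.log m ≤ Real.log ((N : ℝ) + 1) :=
        Real.log_le_log (by positivity) (by linarith)
      have h5 : Real.log 2 ≤ Real.log ((N : ℝ) + 1) :=
        Real.log_le_log (by norm_num) (by linarith)
      nlinarith)
    n hn
  have h1 : Real.log (Real.exp (- (4 * K) * Real.sqrt (n * Real.log (n + 1)))) ≤
      Real.log ((bm (FreeGroup (Fin d)) lam).real (En lam tau n)) := by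
    rw [Real.log_exp]
    have : - Real.log ((bm (FreeGroup (Fin d)) lam).real (En lam tau n)) ≤
        4 * K * Real.sqrt (n * Real.log (n + 1)) := key
    linarith
  exact (Real.log_le_log_iff (Real.exp_pos _) (hpos n hn)).mp h1

end Pool.Agent.H649S
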