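import Mathlib

/-!
The two Bernoulli shifts on the regular tree of degree `2 d`, orbit distances, and the local rule
of a map between them.
-/

set_option autoImplicit false

open MeasureTheory

namespace Pool.Agent.H649S

/-- the space `[0,1]^G` -/
abbrev X (G : Type) : Type := G → unitInterval

/-- the product of the Lebesgue measures -/
noncomputable def bern (G : Type) : Measure (X G) :=
  Measure.infinitePi fun _ : G => (volume : Measure unitInterval)

/-- the shift action: `(g x)(h) = x (g⁻¹ h)` -/
def act {G : Type} [Group G] (g : G) (x : X G) : X G := fun h => x (g⁻¹ * h)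

/-- word length with respect to `S` -/
noncomputable def wlen {G : Type} [Group G] (S : Set G) (g : G) : ℕ :=
  sInf {n | ∃ l : List G, (∀ a ∈ l, a ∈ S) ∧ l.length = n ∧ l.prod = g}

/-- the orbit distance: the infimum of `|g|` over all `g` with `g x = y`, infinite if there is
no such `g` -/
noncomputable def odist {G : Type} [Group G] (S : Set G) (x y : X G) : ℕ∞ :=
  ⨅ g : G, ⨅ _ : act g x = y, (wlen S g : ℕ∞)

/-- the free group of rank `d` -/
abbrev FF (d : ℕ) : Type := FreeGroup (Fin d)

/-- its generators and their inverses -/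
def SF (d : ℕ) : Set (FF d) := {g | ∃ i : Fin d, g = FreeGroup.of i ∨ g = (FreeGroup.of i)⁻¹}

/-- the free product of `2 d` groups of order two -/
abbrev Gam (d : ℕ) : Type := Monoid.CoprodI fun _ : Fin (2 * d) => Multiplicative (ZMod 2)

/-- its generating involutions -/
def sg {d : ℕ} (j : Fin (2 * d)) : Gam d :=
  Monoid.CoprodI.of (M := fun _ : Fin (2 * d) => Multiplicative (ZMod 2)) (i := j)
    (Multiplicative.ofAdd 1)

/-- the set of the generating involutions -/
def SG (d : ℕ) : Set (Gam d) := Set.range sg

/-- `Phi` preserves the orbit distance almost surely, on the whole orbit -/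
def OrbitIso {d : ℕ} (Phi : X (FF d) → X (Gam d)) : Prop :=
  ∀ᵐ x ∂(bern (FF d)), ∀ g : FF d,
    odist (SG d) (Phi x) (Phi (act g x)) = odist (SF d) x (act g x)

/-- the local rule of `Phi` at `x`: all pairs `(a, j)` such that `a` is a generator or the inverse
of one, and `Phi (a x) = s_j Phi x` -/
def rule {d : ℕ} (Phi : X (FF d) → X (Gam d)) (x : X (FF d)) : Set (FF d × Fin (2 * d)) :=
  {p | p.1 ∈ SF d ∧ Phi (act p.1 x) = act (sg p.2) (Phi x)}

/-- the labels of `x` in the ball of radius `n`, the labels of `z` outside -/
noncomputable def glue {d : ℕ} (n : ℕ) (x z : X (FF d)) : X (FF d) :=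
  fun h => if wlen (SF d) h ≤ n then x h else z h

/-- the labels of `x` in the ball of radius `n` determine the local rule of `Phi` almost surely -/
def Local {d : ℕ} (Phi : X (FF d) → X (Gam d)) (n : ℕ) (x : X (FF d)) : Prop :=
  ∃ P : Set (FF d × Fin (2 * d)), ∀ᵐ z ∂(bern (FF d)), rule Phi (glue n x z) = P

end Pool.Agent.H649S
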