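import Pool.Agent.H649S.Splice

/-!
Functions of independent labels that are determined by the labels off a set `A`.
-/

set_option autoImplicit false
set_option linter.unusedSectionVars false

open MeasureTheory Set
open scoped ENNReal

namespace Pool.Agent.H649S

section D

variable {V Lab : Type} [MeasurableSpace Lab] (lam : Measure Lab) [IsProbabilityMeasure lam]
variable {C : Type} [Finite C] [MeasurableSpace C] [MeasurableSingletonClass C]

/-- given the labels of `x` off `A`, the value of `f` is almost surely constant -/
def Det (A : Set V) (f : (V → Lab) → C) (x : V → Lab) : Prop :=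
  ∃ c, ∀ᵐ y ∂(bm V lam), f (spl A x y) = c

theorem det_spl (A : Set V) (f : (V → Lab) → C) (x y : V → Lab) :
    Det lam A f (spl A x y) ↔ Det lam A f x := by
  unfold Det
  simp only [spl_spl_left]

theorem measurableSet_det (A : Set V) {f : (V → Lab) → C} (hf : Measurable f) :
    MeasurableSet {x | Det lam A f x} := by
  have h1 : {x | Det lam A f x} =
      ⋃ c : C, {x | (bm V lam) {y | ¬ f (spl A x y) = c} = 0} := by
    ext x
    simp only [Set.mem_iUnion]
    exact Iff.rfl
  rw [h1]
  refine MeasurableSet.iUnion fun c => ?_
  have hM : MeasurableSet {p : (V → Lab) × (V → Lab) | ¬ f (spl A p.1 p.2) = c} :=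
    ((hf.comp (measurable_spl A)) (measurableSet_singleton c)).compl
  have h2 : Measurable fun x => (bm V lam) {y | ¬ f (spl A x y) = c} :=
    measurable_measure_prodMk_left (ν := bm V lam) hM
  exact h2 (measurableSet_singleton 0)

/-- a determined function is equal to its determined value -/
theorem det_value (A : Set V) {f : (V → Lab) → C} (hf : Measurable f) :
    ∀ᵐ x ∂(bm V lam), Det lam A f x → ∀ᵐ y ∂(bm V lam), f (spl A x y) = f x := by
  have hmeas : MeasurableSet {x | Det lam A f x → ∀ᵐ y ∂(bm V lam), f (spl A x y) = f x} := by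
    have hM : MeasurableSet {p : (V → Lab) × (V → Lab) | ¬ f (spl A p.1 p.2) = f p.1} := by
      have m1 : Measurable fun p : (V → Lab) × (V → Lab) => f (spl A p.1 p.2) :=
        hf.comp (measurable_spl A)
      have m2 : Measurable fun p : (V → Lab) × (V → Lab) => f p.1 := hf.comp measurable_fst
      have : {p : (V → Lab) × (V → Lab) | ¬ f (spl A p.1 p.2) = f p.1} =
          (⋃ c : C, {p | f (spl A p.1 p.2) = c} ∩ {p | f p.1 = c})ᶜ := by
        ext p
        simp only [Set.mem_compl_iff, Set.mem_iUnion, Set.mem_inter_iff]
        constructor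
        · rintro h ⟨c, h1, h2⟩
          exact h (h1.trans h2.symm)
        · intro h h'
          exact h ⟨f p.1, h', rfl⟩
      rw [this]
      refine (MeasurableSet.iUnion fun c => ?_).compl
      exact (m1 (measurableSet_singleton c)).inter (m2 (measurableSet_singleton c))
    have h2 : Measurable fun x => (bm V lam) {y | ¬ f (spl A x y) = f x} :=
      measurable_measure_prodMk_left (ν := bm V lam) hM
    have h3 : {x | Det lam A f x → ∀ᵐ y ∂(bm V lam), f (spl A x y) = f x} =
        {x | Det lam A f x}ᶜ ∪ {x | (bm V lam) {y | ¬ f (spl A x y) = f x} = 0} := by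
      ext x
      show (Det lam A f x → _) ↔ (¬ Det lam A f x ∨ _)
      rw [imp_iff_not_or]
      exact Iff.rfl
    rw [h3]
    exact (measurableSet_det lam A hf).compl.union (h2 (measurableSet_singleton 0))
  refine ae_of_spl lam A hmeas fun x => ?_
  by_cases hx : Det lam A f x
  · obtain ⟨c, hc⟩ := hx
    filter_upwards [hc] with y hy _
    simp only [spl_spl_left]
    rw [hy]
    exact hc
  · refine Filter.Eventually.of_forall fun y h => ?_
    exact absurd ((det_spl lam A f x y).mp h) hx

/-- less information off a bigger set -/
theorem det_mono {A B : Set V} (h : A ⊆ B) {f : (V → Lab) → C} (hf : Measurable f) :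
    ∀ᵐ x ∂(bm V lam), Det lam B f x → Det lam A f x := by
  have hmeas : MeasurableSet {x | Det lam B f x → Det lam A f x} := by
    have h3 : {x | Det lam B f x → Det lam A f x} =
        {x | Det lam B f x}ᶜ ∪ {x | Det lam A f x} := by
      ext x
      show (Det lam B f x → _) ↔ (¬ Det lam B f x ∨ _)
      rw [imp_iff_not_or]
      exact Iff.rfl
    rw [h3]
    exact (measurableSet_det lam B hf).compl.union (measurableSet_det lam A hf)
  refine ae_of_spl lam B hmeas fun x => ?_
  by_cases hx : Det lam B f x
  · obtain ⟨c, hc⟩ := hx
    have h1 : ∀ᵐ z ∂(bm V lam), ∀ᵐ w ∂(bm V lam), f (spl B x (spl A z w)) = c :=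
      ae_spl lam A hc
    filter_upwards [h1] with z hz _
    refine ⟨c, ?_⟩
    filter_upwards [hz] with w hw
    rw [spl_spl_sub h]
    exact hw
  · refine Filter.Eventually.of_forall fun y h => ?_
    exact absurd ((det_spl lam B f x y).mp h) hx

theorem det_congr_set {A B : Set V} (h : A = B) (f : (V → Lab) → C) (x : V → Lab) :
    Det lam A f x ↔ Det lam B f x := by rw [h]

end D

end Pool.Agent.H649S
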