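import Pool.Agent.H649S.Splice

/-!
Conditional entropies of events under partial information on independent labels.
-/

set_option autoImplicit false
set_option linter.unusedSectionVars false

open MeasureTheory Set
open scoped ENNReal

namespace Pool.Agent.H649S

/-! ### scalar inequalities -/

theorem eta_le (x : ℝ) (hx : 0 ≤ x) : Real.negMulLog x ≤ 1 - x := by
  rcases hx.eq_or_lt with h | h
  · rw [← h]; simp
  · have h1 := Real.one_sub_inv_le_log_of_pos h
    unfold Real.negMulLog
    have h2 : x * (1 - x⁻¹) ≤ x * Real.log x := mul_le_mul_of_nonneg_left h1 h.le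
    have h3 : x * (1 - x⁻¹) = x - 1 := by field_simp
    linarith

theorem eta_nonneg {x : ℝ} (h0 : 0 ≤ x) (h1 : x ≤ 1) : 0 ≤ Real.negMulLog x :=
  Real.negMulLog_nonneg h0 h1

/-- one term of the Gibbs inequality -/
theorem gibbs_term (s u p : ℝ) (hs : 0 ≤ s) (hu : s ≤ u) (hp : 0 ≤ p) (h : p = 0 → s = 0) :
    s * Real.log p - s * (Real.log s - Real.log u) ≤ p * u - s := by
  rcases hs.eq_or_lt with h0 | h0
  · rw [← h0]
    have : 0 ≤ p * u := mul_nonneg hp (hs.trans hu)
    simp
    exact this
  · have hp' : 0 < p := lt_of_le_of_ne hp (fun hh => h0.ne' (h hh.symm))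
    have hu' : 0 < u := lt_of_lt_of_le h0 hu
    have h1 : Real.log (p * u / s) ≤ p * u / s - 1 := Real.log_le_sub_one_of_pos (by positivity)
    have h2 : Real.log (p * u / s) = Real.log p + Real.log u - Real.log s := by
      rw [Real.log_div (by positivity) (by positivity), Real.log_mul (by positivity) (by positivity)]
    have h3 : s * Real.log (p * u / s) ≤ s * (p * u / s - 1) := mul_le_mul_of_nonneg_left h1 h0.le
    have h4 : s * (p * u / s - 1) = p * u - s := by field_simp
    rw [h2, h4] at h3
    linarith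

theorem gibbs (s t a b : ℝ) (hs : 0 ≤ s) (ht : 0 ≤ t) (ha : 0 ≤ a) (hb : 0 ≤ b)
    (h1 : a = 0 → s = 0) (h2 : b = 0 → t = 0) :
    Real.negMulLog s + Real.negMulLog t - Real.negMulLog (s + t) ≤
      - s * (Real.log a - Real.log (a + b)) - t * (Real.log b - Real.log (a + b)) := by
  rcases (add_nonneg ha hb).eq_or_lt with h0 | h0
  · have ha0 : a = 0 := by linarith
    have hb0 : b = 0 := by linarith
    rw [h1 ha0, h2 hb0]
    simp
  · have e1 := gibbs_term s (s + t) (a / (a + b)) hs (by linarith) (by positivity)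
      (fun h => h1 (by
        rcases div_eq_zero_iff.mp h with h | h
        · exact h
        · exact absurd h h0.ne'))
    have e2 := gibbs_term t (s + t) (b / (a + b)) ht (by linarith) (by positivity)
      (fun h => h2 (by
        rcases div_eq_zero_iff.mp h with h | h
        · exact h
        · exact absurd h h0.ne'))
    have e3 : a / (a + b) * (s + t) - s + (b / (a + b) * (s + t) - t) = 0 := by
      field_simp; ring
    have l1 : s * Real.log (a / (a + b)) = s * (Real.log a - Real.log (a + b)) := by
      rcases ha.eq_or_lt with h | h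
      · rw [h1 h.symm]; simp
      · rw [Real.log_div h.ne' h0.ne']
    have l2 : t * Real.log (b / (a + b)) = t * (Real.log b - Real.log (a + b)) := by
      rcases hb.eq_or_lt with h | h
      · rw [h2 h.symm]; simp
      · rw [Real.log_div h.ne' h0.ne']
    rw [l1] at e1
    rw [l2] at e2
    unfold Real.negMulLog
    nlinarith [e1, e2, e3]

/-! ### the integrated inequality -/

section CI

variable {Om : Type} [MeasurableSpace Om] (P : Measure Om) [IsProbabilityMeasure P]

theorem int_of_unit {f : Om → ℝ} (hf : Measurable f) (h0 : ∀ x, 0 ≤ f x) (h1 : ∀ x, f x ≤ 1) :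
    Integrable f P :=
  Integrable.of_bound hf.aestronglyMeasurable 1
    (Filter.Eventually.of_forall fun x => by rw [Real.norm_eq_abs, abs_of_nonneg (h0 x)]; exact h1 x)

theorem int_eta {f : Om → ℝ} (hf : Measurable f) (h0 : ∀ x, 0 ≤ f x) (h1 : ∀ x, f x ≤ 1) :
    Integrable (fun x => Real.negMulLog (f x)) P :=
  int_of_unit P (Real.continuous_negMulLog.measurable.comp hf)
    (fun x => eta_nonneg (h0 x) (h1 x)) (fun x => (eta_le _ (h0 x)).trans (by linarith [h0 x]))

theorem ci {s t : Om → ℝ} (hs : Measurable s) (ht : Measurable t) (hs0 : ∀ x, 0 ≤ s x)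
    (ht0 : ∀ x, 0 ≤ t x) (h1 : ∀ x, s x + t x ≤ 1) :
    ∫ x, (Real.negMulLog (s x) + Real.negMulLog (t x) - Real.negMulLog (s x + t x)) ∂P ≤
      Real.negMulLog (∫ x, s x ∂P) + Real.negMulLog (∫ x, t x ∂P)
        - Real.negMulLog (∫ x, s x ∂P + ∫ x, t x ∂P) := by
  have is := int_of_unit P hs hs0 (fun x => by linarith [h1 x, ht0 x])
  have it := int_of_unit P ht ht0 (fun x => by linarith [h1 x, hs0 x])
  have es := int_eta P hs hs0 (fun x => by linarith [h1 x, ht0 x])
  have et := int_eta P ht ht0 (fun x => by linarith [h1 x, hs0 x])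
  have est := int_eta P (f := fun x => s x + t x) (hs.add ht)
    (fun x => add_nonneg (hs0 x) (ht0 x)) h1
  set a := ∫ x, s x ∂P with ha
  set b := ∫ x, t x ∂P with hb
  have ha0 : 0 ≤ a := integral_nonneg hs0
  have hb0 : 0 ≤ b := integral_nonneg ht0
  have za : a = 0 → ∀ᵐ x ∂P, s x = 0 := fun h =>
    (integral_eq_zero_iff_of_nonneg hs0 is).mp h
  have zb : b = 0 → ∀ᵐ x ∂P, t x = 0 := fun h =>
    (integral_eq_zero_iff_of_nonneg ht0 it).mp h
  have key : ∀ᵐ x ∂P, Real.negMulLog (s x) + Real.negMulLog (t x) - Real.negMulLog (s x + t x) ≤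
      - s x * (Real.log a - Real.log (a + b)) - t x * (Real.log b - Real.log (a + b)) := by
    by_cases h : a = 0
    · by_cases h' : b = 0
      · filter_upwards [za h, zb h'] with x h1 h2
        exact gibbs _ _ _ _ (hs0 x) (ht0 x) ha0 hb0 (fun _ => h1) (fun _ => h2)
      · filter_upwards [za h] with x h1
        exact gibbs _ _ _ _ (hs0 x) (ht0 x) ha0 hb0 (fun _ => h1) (fun h2 => absurd h2 h')
    · by_cases h' : b = 0
      · filter_upwards [zb h'] with x h1
        exact gibbs _ _ _ _ (hs0 x) (ht0 x) ha0 hb0 (fun h2 => absurd h2 h) (fun _ => h1)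
      · refine Filter.Eventually.of_forall fun x => ?_
        exact gibbs _ _ _ _ (hs0 x) (ht0 x) ha0 hb0 (fun h2 => absurd h2 h)
          (fun h2 => absurd h2 h')
  have i1 : Integrable (fun x => - s x * (Real.log a - Real.log (a + b))) P :=
    is.neg.mul_const _
  have i2 : Integrable (fun x => t x * (Real.log b - Real.log (a + b))) P := it.mul_const _
  calc ∫ x, (Real.negMulLog (s x) + Real.negMulLog (t x) - Real.negMulLog (s x + t x)) ∂P
      ≤ ∫ x, (- s x * (Real.log a - Real.log (a + b))
          - t x * (Real.log b - Real.log (a + b))) ∂P :=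
        integral_mono_ae ((es.add et).sub est) (i1.sub i2) key
    _ = - a * (Real.log a - Real.log (a + b)) - b * (Real.log b - Real.log (a + b)) := by
        rw [integral_sub i1 i2, integral_mul_const, integral_mul_const, integral_neg]
    _ = _ := by
        unfold Real.negMulLog
        ring

end CI

end Pool.Agent.H649S
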