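import Pool.Agent.H649S.Ent

/-!
Conditional entropies of events under partial information on independent labels, second part.
-/

set_option autoImplicit false
set_option linter.unusedSectionVars false

open MeasureTheory Set
open scoped ENNReal

namespace Pool.Agent.H649S

section Pr

variable {V Lab : Type} [MeasurableSpace Lab] (lam : Measure Lab) [IsProbabilityMeasure lam]

/-- conditional probability of `A`, given the labels of `x` on `S` -/
noncomputable def pr (A : Set (V → Lab)) (S : Set V) (x : V → Lab) : ℝ :=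
  (bm V lam).real {y | spl Sᶜ x y ∈ A}

theorem pr_nonneg (A : Set (V → Lab)) (S : Set V) (x : V → Lab) : 0 ≤ pr lam A S x :=
  measureReal_nonneg

theorem pr_le_one (A : Set (V → Lab)) (S : Set V) (x : V → Lab) : pr lam A S x ≤ 1 :=
  measureReal_le_one

theorem measurableSet_sec {A : Set (V → Lab)} (hA : MeasurableSet A) (S : Set V) (x : V → Lab) :
    MeasurableSet {y | spl S x y ∈ A} := measurable_spl_right S x hA

theorem measurable_pr {A : Set (V → Lab)} (hA : MeasurableSet A) (S : Set V) :
    Measurable (pr lam A S) := by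
  unfold pr
  refine Measurable.ennreal_toReal ?_
  exact measurable_measure_prodMk_left (ν := bm V lam)
    (s := {p : (V → Lab) × (V → Lab) | spl Sᶜ p.1 p.2 ∈ A}) (measurable_spl Sᶜ hA)

theorem pr_add {A B : Set (V → Lab)} (hA : MeasurableSet A) (hB : MeasurableSet B)
    (hd : Disjoint A B) (S : Set V) (x : V → Lab) :
    pr lam (A ∪ B) S x = pr lam A S x + pr lam B S x := by
  unfold pr
  rw [← measureReal_union]
  · congr 1
  · rw [Set.disjoint_left]
    intro y h1 h2
    exact Set.disjoint_left.mp hd h1 h2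
  · exact measurableSet_sec hB _ x

theorem pr_tower {A : Set (V → Lab)} (hA : MeasurableSet A) {S S' : Set V} (h : S ⊆ S')
    (x : V → Lab) :
    ∫ y, pr lam A S' (spl Sᶜ x y) ∂(bm V lam) = pr lam A S x := by
  have h0 : ∀ y z : V → Lab, spl S'ᶜ (spl Sᶜ x y) z = spl Sᶜ x (spl S'ᶜ y z) :=
    fun y z => spl_spl_sub (Set.compl_subset_compl.mpr h) x y z
  have hM : MeasurableSet {p : (V → Lab) × (V → Lab) | spl Sᶜ x (spl S'ᶜ p.1 p.2) ∈ A} :=
    ((measurable_spl_right Sᶜ x).comp (measurable_spl S'ᶜ)) hA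
  have h1 : ∫ y, pr lam A S' (spl Sᶜ x y) ∂(bm V lam) =
      ((bm V lam).prod (bm V lam)).real
        {p : (V → Lab) × (V → Lab) | spl Sᶜ x (spl S'ᶜ p.1 p.2) ∈ A} := by
    unfold pr
    simp only [h0]
    rw [measureReal_def, Measure.prod_apply hM]
    rw [← integral_toReal]
    · rfl
    · exact (measurable_measure_prodMk_left hM).aemeasurable
    · exact Filter.Eventually.of_forall fun y => measure_lt_top _ _
  rw [h1]
  unfold pr
  have h2 := (spl_mp lam S'ᶜ).measure_preimage (measurableSet_sec hA Sᶜ x).nullMeasurableSet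
  rw [measureReal_def, measureReal_def, ← h2]
  rfl

/-- expected `eta` of the conditional probability -/
noncomputable def Ph (A : Set (V → Lab)) (S : Set V) : ℝ :=
  ∫ x, Real.negMulLog (pr lam A S x) ∂(bm V lam)

theorem int_eta_pr {A : Set (V → Lab)} (hA : MeasurableSet A) (S : Set V) :
    Integrable (fun x => Real.negMulLog (pr lam A S x)) (bm V lam) :=
  int_eta _ (measurable_pr lam hA S) (pr_nonneg lam A S) (pr_le_one lam A S)

theorem Ph_c2 {A B : Set (V → Lab)} (hA : MeasurableSet A) (hB : MeasurableSet B)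
    (hd : Disjoint A B) {S S' : Set V} (h : S ⊆ S') :
    Ph lam A S' + Ph lam B S' - Ph lam (A ∪ B) S' ≤ Ph lam A S + Ph lam B S - Ph lam (A ∪ B) S := by
  have hAB := hA.union hB
  set G : (V → Lab) → ℝ := fun x => Real.negMulLog (pr lam A S' x)
    + Real.negMulLog (pr lam B S' x) - Real.negMulLog (pr lam (A ∪ B) S' x) with hG
  have iG : Integrable G (bm V lam) :=
    ((int_eta_pr lam hA S').add (int_eta_pr lam hB S')).sub (int_eta_pr lam hAB S')
  have e1 : Ph lam A S' + Ph lam B S' - Ph lam (A ∪ B) S' = ∫ x, G x ∂(bm V lam) := by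
    unfold Ph
    rw [hG, integral_sub, integral_add]
    · exact int_eta_pr lam hA S'
    · exact int_eta_pr lam hB S'
    · exact (int_eta_pr lam hA S').add (int_eta_pr lam hB S')
    · exact int_eta_pr lam hAB S'
  have mG : Measurable G := by
    rw [hG]
    exact (((Real.continuous_negMulLog.measurable.comp (measurable_pr lam hA S')).add
      (Real.continuous_negMulLog.measurable.comp (measurable_pr lam hB S'))).sub
      (Real.continuous_negMulLog.measurable.comp (measurable_pr lam hAB S')))
  have mp := spl_mp lam (V := V) (Lab := Lab) Sᶜ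
  have iG2 : Integrable (fun p : (V → Lab) × (V → Lab) => G (spl Sᶜ p.1 p.2))
      ((bm V lam).prod (bm V lam)) := (mp.integrable_comp mG.aestronglyMeasurable).mpr iG
  have e2 : ∫ x, G x ∂(bm V lam) = ∫ x, ∫ y, G (spl Sᶜ x y) ∂(bm V lam) ∂(bm V lam) := by
    rw [← mp.map_eq, integral_map mp.measurable.aemeasurable mG.aestronglyMeasurable, mp.map_eq]
    exact integral_prod _ iG2
  have e3 : Ph lam A S + Ph lam B S - Ph lam (A ∪ B) S =
      ∫ x, (Real.negMulLog (pr lam A S x) + Real.negMulLog (pr lam B S x)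
        - Real.negMulLog (pr lam (A ∪ B) S x)) ∂(bm V lam) := by
    unfold Ph
    rw [integral_sub, integral_add]
    · exact int_eta_pr lam hA S
    · exact int_eta_pr lam hB S
    · exact (int_eta_pr lam hA S).add (int_eta_pr lam hB S)
    · exact int_eta_pr lam hAB S
  rw [e1, e2, e3]
  refine integral_mono iG2.integral_prod_left
    (((int_eta_pr lam hA S).add (int_eta_pr lam hB S)).sub (int_eta_pr lam hAB S)) ?_
  intro x
  have m1 : Measurable fun y => pr lam A S' (spl Sᶜ x y) :=
    (measurable_pr lam hA S').comp (measurable_spl_right Sᶜ x)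
  have m2 : Measurable fun y => pr lam B S' (spl Sᶜ x y) :=
    (measurable_pr lam hB S').comp (measurable_spl_right Sᶜ x)
  have c := ci (bm V lam) m1 m2 (fun y => pr_nonneg lam A S' _) (fun y => pr_nonneg lam B S' _)
    (fun y => by rw [← pr_add lam hA hB hd]; exact pr_le_one lam _ _ _)
  rw [pr_tower lam hA h, pr_tower lam hB h] at c
  simp only [hG]
  rw [pr_add lam hA hB hd S x]
  refine le_trans (le_of_eq ?_) c
  congr 1
  funext y
  rw [pr_add lam hA hB hd S']

theorem pr_univ (S : Set V) (x : V → Lab) : pr lam (Set.univ : Set (V → Lab)) S x = 1 := by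
  unfold pr; simp

theorem Ph_univ (S : Set V) : Ph lam (Set.univ : Set (V → Lab)) S = 0 := by
  unfold Ph; simp [pr_univ]

/-- expected conditional entropy of the event `A` -/
noncomputable def gE (A : Set (V → Lab)) (S : Set V) : ℝ := Ph lam A S + Ph lam Aᶜ S

theorem gE_anti {A : Set (V → Lab)} (hA : MeasurableSet A) {S S' : Set V} (h : S ⊆ S') :
    gE lam A S' ≤ gE lam A S := by
  have := Ph_c2 lam hA hA.compl disjoint_compl_right h
  rw [Set.union_compl_self, Ph_univ, Ph_univ] at this
  unfold gE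
  linarith

/-- expected conditional entropy of a pair of events -/
noncomputable def chiE (A B : Set (V → Lab)) (S : Set V) : ℝ :=
  Ph lam (A ∩ B) S + Ph lam (A ∩ Bᶜ) S + Ph lam (Aᶜ ∩ B) S + Ph lam (Aᶜ ∩ Bᶜ) S

theorem chi_right {A B : Set (V → Lab)} (hA : MeasurableSet A) (hB : MeasurableSet B)
    {S S' : Set V} (h : S ⊆ S') :
    chiE lam A B S' - gE lam B S' ≤ chiE lam A B S - gE lam B S := by
  have h1 := Ph_c2 lam (hA.inter hB) (hA.compl.inter hB)
    (Set.disjoint_left.mpr fun x h1 h2 => h2.1 h1.1) h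
  have h2 := Ph_c2 lam (hA.inter hB.compl) (hA.compl.inter hB.compl)
    (Set.disjoint_left.mpr fun x h1 h2 => h2.1 h1.1) h
  rw [← Set.union_inter_distrib_right, Set.union_compl_self, Set.univ_inter] at h1 h2
  unfold chiE gE
  linarith

theorem chi_left {A B : Set (V → Lab)} (hA : MeasurableSet A) (hB : MeasurableSet B)
    {S S' : Set V} (h : S ⊆ S') :
    chiE lam A B S' - gE lam A S' ≤ chiE lam A B S - gE lam A S := by
  have h1 := Ph_c2 lam (hA.inter hB) (hA.inter hB.compl)
    (Set.disjoint_left.mpr fun x h1 h2 => h2.2 h1.2) h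
  have h2 := Ph_c2 lam (hA.compl.inter hB) (hA.compl.inter hB.compl)
    (Set.disjoint_left.mpr fun x h1 h2 => h2.2 h1.2) h
  rw [← Set.inter_union_distrib_left, Set.union_compl_self, Set.inter_univ] at h1 h2
  unfold chiE gE
  linarith

/-- expected conditional mutual information of two events -/
noncomputable def miE (A B : Set (V → Lab)) (S : Set V) : ℝ :=
  gE lam A S + gE lam B S - chiE lam A B S

theorem mi_step {A B : Set (V → Lab)} (hA : MeasurableSet A) (hB : MeasurableSet B)
    {S S' : Set V} (h : S ⊆ S') :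
    miE lam A B S - miE lam A B S' ≤
      min (gE lam A S - gE lam A S') (gE lam B S - gE lam B S') := by
  have h1 := chi_right lam hA hB h
  have h2 := chi_left lam hA hB h
  unfold miE
  refine le_min ?_ ?_ <;> linarith

/-! ### events that depend on few labels -/

/-- `A` depends only on the labels in `W` -/
def Dep (A : Set (V → Lab)) (W : Set V) : Prop :=
  ∀ x y : V → Lab, (∀ v ∈ W, x v = y v) → (x ∈ A ↔ y ∈ A)

theorem Dep.compl {A : Set (V → Lab)} {W : Set V} (h : Dep A W) : Dep Aᶜ W :=
  fun x y hxy => not_congr (h x y hxy)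

theorem Dep.inter {A B : Set (V → Lab)} {W : Set V} (h : Dep A W) (h' : Dep B W) :
    Dep (A ∩ B) W :=
  fun x y hxy => and_congr (h x y hxy) (h' x y hxy)

theorem Dep.mono {A : Set (V → Lab)} {W W' : Set V} (h : Dep A W) (hW : W ⊆ W') : Dep A W' :=
  fun x y hxy => h x y fun v hv => hxy v (hW hv)

theorem Ph_congr {A : Set (V → Lab)} {W : Set V} (hA : Dep A W) {S S' : Set V}
    (h : ∀ v ∈ W, v ∈ S ↔ v ∈ S') : Ph lam A S = Ph lam A S' := by
  unfold Ph pr
  congr 1
  funext x
  congr 2
  ext y
  refine hA _ _ fun v hv => ?_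
  by_cases h1 : v ∈ S
  · rw [spl_of_notMem (by simpa using h1), spl_of_notMem (by simpa using (h v hv).mp h1)]
  · rw [spl_of_mem (by simpa using h1),
      spl_of_mem (by simpa using fun h2 => h1 ((h v hv).mpr h2))]

theorem Ph_full {A : Set (V → Lab)} {W : Set V} (hA : Dep A W) {S : Set V} (h : W ⊆ S) :
    Ph lam A S = 0 := by
  unfold Ph
  have : ∀ x, Real.negMulLog (pr lam A S x) = 0 := by
    intro x
    have h1 : ∀ y, (spl Sᶜ x y ∈ A) ↔ x ∈ A := fun y => hA _ _ fun v hv =>
      spl_of_notMem (by simpa using h hv)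
    unfold pr
    simp only [h1]
    by_cases hx : x ∈ A
    · simp [hx]
    · simp [hx]
  simp [this]

theorem Ph_empty (A : Set (V → Lab)) : Ph lam A ∅ = Real.negMulLog ((bm V lam).real A) := by
  unfold Ph pr
  have : ∀ x : V → Lab, {y | spl (∅ : Set V)ᶜ x y ∈ A} = A := by
    intro x
    ext y
    have : spl (∅ : Set V)ᶜ x y = y := by
      funext v
      exact spl_of_mem (by simp)
    change spl (∅ : Set V)ᶜ x y ∈ A ↔ y ∈ A
    rw [this]
  simp only [this]
  simp

theorem Ph_rl (e : V ≃ V) {A : Set (V → Lab)} (hA : MeasurableSet A) (S : Set V) :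
    Ph lam {x | rl e x ∈ A} S = Ph lam A (e ⁻¹' S) := by
  unfold Ph
  have h1 : ∀ x, pr lam {x | rl e x ∈ A} S x = pr lam A (e ⁻¹' S) (rl e x) := by
    intro x
    unfold pr
    have h2 : {y | spl Sᶜ x y ∈ {x | rl e x ∈ A}} =
        rl e ⁻¹' {y | spl (e ⁻¹' S)ᶜ (rl e x) y ∈ A} := by
      ext y
      change rl e (spl Sᶜ x y) ∈ A ↔ spl (e ⁻¹' S)ᶜ (rl e x) (rl e y) ∈ A
      rw [rl_spl]
      rfl
    rw [h2, measureReal_def, measureReal_def,
      (rl_mp lam e).measure_preimage (measurableSet_sec hA _ _).nullMeasurableSet]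
  simp only [h1]
  have mp := rl_mp lam (Lab := Lab) e
  have m : Measurable fun x => Real.negMulLog (pr lam A (e ⁻¹' S) x) :=
    Real.continuous_negMulLog.measurable.comp (measurable_pr lam hA _)
  conv_rhs => rw [← mp.map_eq]
  rw [integral_map mp.measurable.aemeasurable m.aestronglyMeasurable]

theorem gE_congr {A : Set (V → Lab)} {W : Set V} (hA : Dep A W) {S S' : Set V}
    (h : ∀ v ∈ W, v ∈ S ↔ v ∈ S') : gE lam A S = gE lam A S' := by
  unfold gE; rw [Ph_congr lam hA h, Ph_congr lam hA.compl h]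

theorem gE_full {A : Set (V → Lab)} {W : Set V} (hA : Dep A W) {S : Set V} (h : W ⊆ S) :
    gE lam A S = 0 := by
  unfold gE; rw [Ph_full lam hA h, Ph_full lam hA.compl h, add_zero]

theorem miE_full {A B : Set (V → Lab)} {W : Set V} (hA : Dep A W) (hB : Dep B W) {S : Set V}
    (h : W ⊆ S) : miE lam A B S = 0 := by
  unfold miE chiE
  rw [gE_full lam hA h, gE_full lam hB h, Ph_full lam (hA.inter hB) h,
    Ph_full lam (hA.inter hB.compl) h, Ph_full lam (hA.compl.inter hB) h,
    Ph_full lam (hA.compl.inter hB.compl) h]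
  simp

theorem gE_rl (e : V ≃ V) {A : Set (V → Lab)} (hA : MeasurableSet A) (S : Set V) :
    gE lam {x | rl e x ∈ A} S = gE lam A (e ⁻¹' S) := by
  unfold gE
  rw [Ph_rl lam e hA]
  have : {x : V → Lab | rl e x ∈ A}ᶜ = {x | rl e x ∈ Aᶜ} := rfl
  rw [this, Ph_rl lam e hA.compl]

end Pr

end Pool.Agent.H649S
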