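import Pool.Agent.H649S.Meas

/-!
The recursive inequalities.
-/

set_option autoImplicit false
set_option linter.unusedSectionVars false

open MeasureTheory Set
open scoped ENNReal

namespace Pool.Agent.H649S

variable {d : ℕ} {Lab : Type} [MeasurableSpace Lab] (lam : Measure Lab) [IsProbabilityMeasure lam]
variable {tau : (FreeGroup (Fin d) → Lab) → (Fin d × Bool → Fin (2 * d))}

theorem Col.cover (h : Col lam tau) {P B1 B2 : Set (FreeGroup (Fin d) → Lab)}
    (h1 : MeasurableSet B1) (h2 : MeasurableSet B2) (m : ℕ)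
    (hP : ∀ᵐ x ∂(bm (FreeGroup (Fin d)) lam), x ∈ P → ∃ al be,
      (∃ t, t ∈ Finset.Icc 1 m ∧ x ∈ Alt tau t al be B1) ∨ x ∈ Alt tau m al be B2) :
    (bm (FreeGroup (Fin d)) lam).real P ≤ ((2 * d : ℕ) : ℝ) ^ 2 *
      (m * (bm (FreeGroup (Fin d)) lam).real B1 + (bm (FreeGroup (Fin d)) lam).real B2) := by
  set mu := bm (FreeGroup (Fin d)) lam with hmu
  have k1 : mu P ≤ mu (⋃ al : Fin (2 * d), ⋃ be : Fin (2 * d),
      ((⋃ t ∈ Finset.Icc 1 m, Alt tau t al be B1) ∪ Alt tau m al be B2)) := by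
    apply measure_mono_ae
    filter_upwards [hP] with x hx hxP
    obtain ⟨al, be, hx'⟩ := hx hxP
    refine Set.mem_iUnion.mpr ⟨al, Set.mem_iUnion.mpr ⟨be, ?_⟩⟩
    rcases hx' with ⟨t, ht, hx'⟩ | hx'
    · exact Or.inl (Set.mem_iUnion₂.mpr ⟨t, ht, hx'⟩)
    · exact Or.inr hx'
  have k2 : mu (⋃ al : Fin (2 * d), ⋃ be : Fin (2 * d),
      ((⋃ t ∈ Finset.Icc 1 m, Alt tau t al be B1) ∪ Alt tau m al be B2)) ≤
      ∑ al : Fin (2 * d), ∑ be : Fin (2 * d), (m * mu B1 + mu B2) := by
    refine (measure_iUnion_fintype_le _ _).trans (Finset.sum_le_sum fun al _ => ?_)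
    refine (measure_iUnion_fintype_le _ _).trans (Finset.sum_le_sum fun be _ => ?_)
    refine (measure_union_le _ _).trans (add_le_add ?_ (h.alt_le lam h2 m al be))
    refine (measure_biUnion_finset_le _ _).trans ?_
    refine (Finset.sum_le_sum fun t _ => h.alt_le lam h1 t al be).trans ?_
    simp [Finset.sum_const, hmu]
  have k3 := k1.trans k2
  simp only [Finset.sum_const, Finset.card_univ, Fintype.card_fin, nsmul_eq_mul] at k3
  have k4 := ENNReal.toReal_mono (b := ((2 * d : ℕ) : ℝ≥0∞) * (((2 * d : ℕ) : ℝ≥0∞) *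
    (m * mu B1 + mu B2))) (by finiteness) k3
  have k5 : (((2 * d : ℕ) : ℝ≥0∞) * (((2 * d : ℕ) : ℝ≥0∞) * (m * mu B1 + mu B2))).toReal =
      ((2 * d : ℕ) : ℝ) ^ 2 * (m * mu.real B1 + mu.real B2) := by
    rw [ENNReal.toReal_mul, ENNReal.toReal_mul, ENNReal.toReal_add (by finiteness) (by finiteness),
      ENNReal.toReal_mul, ENNReal.toReal_natCast, ENNReal.toReal_natCast]
    unfold Measure.real
    ring
  rw [k5] at k4
  exact k4

theorem Col.ineqK (h : Col lam tau) (n m : ℕ) :
    (bm (FreeGroup (Fin d)) lam).real (Kn lam tau n) ≤ ((2 * d : ℕ) : ℝ) ^ 2 *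
      (m * (bm (FreeGroup (Fin d)) lam).real (Sn lam tau n) +
        (bm (FreeGroup (Fin d)) lam).real (En lam tau (n + m))) :=
  h.cover lam (h.mSn lam n) (h.mEn lam (n + m)) m (h.core lam n m)

theorem Col.ineqE (h : Col lam tau) (n m : ℕ) :
    (bm (FreeGroup (Fin d)) lam).real (En lam tau n) ≤ ((2 * d : ℕ) : ℝ) ^ 2 *
      (m * (bm (FreeGroup (Fin d)) lam).real (Kn lam tau n) +
        (bm (FreeGroup (Fin d)) lam).real (En lam tau (n + m))) :=
  h.cover lam (h.mKn lam n) (h.mEn lam (n + m)) m (h.pend lam n m)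

theorem Col.ineq1 (h : Col lam tau) (n : ℕ) :
    (bm (FreeGroup (Fin d)) lam).real (En lam tau n) ≤ ((2 * d : ℕ) : ℝ) *
      (bm (FreeGroup (Fin d)) lam).real (En lam tau (n + 1)) := by
  set mu := bm (FreeGroup (Fin d)) lam with hmu
  have k1 : mu (En lam tau n) ≤ mu (⋃ l : Fin d × Bool, tr l (En lam tau (n + 1))) := by
    apply measure_mono_ae
    filter_upwards [h.one lam n] with x hx hxP
    obtain ⟨l, hl⟩ := hx hxP
    exact Set.mem_iUnion.mpr ⟨l, hl⟩
  have k2 : mu.real (En lam tau n) ≤ mu.real (⋃ l : Fin d × Bool, tr l (En lam tau (n + 1))) :=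
    ENNReal.toReal_mono (by finiteness) k1
  refine k2.trans ?_
  refine (measureReal_iUnion_fintype_le _).trans ?_
  have k3 : ∀ l : Fin d × Bool, mu.real (tr l (En lam tau (n + 1))) =
      mu.real (En lam tau (n + 1)) := fun l => tr_real lam l (h.mEn lam (n + 1))
  simp only [k3]
  simp only [Finset.sum_const, Finset.card_univ, Fintype.card_prod, Fintype.card_fin,
    Fintype.card_bool, nsmul_eq_mul]
  apply le_of_eq
  push_cast
  ring

theorem Col.core_edges (h : Col lam tau) (n : ℕ) :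
    2 * (bm (FreeGroup (Fin d)) lam).real (Kn lam tau n) +
      (bm (FreeGroup (Fin d)) lam).real (Sn lam tau n) ≤
      ∑ l : Fin d × Bool, (bm (FreeGroup (Fin d)) lam).real
        (Kn lam tau n ∩ tr l (Kn lam tau n)) := by
  classical
  set mu := bm (FreeGroup (Fin d)) lam with hmu
  set K := Kn lam tau n with hK
  set S := Sn lam tau n with hS
  have mK : MeasurableSet K := h.mKn lam n
  have mS : MeasurableSet S := h.mSn lam n
  have mT : ∀ l : Fin d × Bool, MeasurableSet (K ∩ tr l K) :=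
    fun l => mK.inter (measurableSet_tr l mK)
  have e1 : ∀ A : Set (FreeGroup (Fin d) → Lab), MeasurableSet A →
      mu.real A = ∫ x, A.indicator (fun _ => (1 : ℝ)) x ∂mu := by
    intro A hA
    rw [integral_indicator_const _ hA]
    simp
  have i1 : ∀ A : Set (FreeGroup (Fin d) → Lab), MeasurableSet A →
      Integrable (A.indicator (fun _ => (1 : ℝ))) mu := by
    intro A hA
    exact (integrable_const _).indicator hA
  rw [e1 K mK, e1 S mS, ← integral_const_mul, ← integral_add ((i1 K mK).const_mul _) (i1 S mS)]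
  have e2 : ∑ l : Fin d × Bool, mu.real (K ∩ tr l K) =
      ∫ x, ∑ l : Fin d × Bool, (K ∩ tr l K).indicator (fun _ => (1 : ℝ)) x ∂mu := by
    rw [integral_finsetSum _ fun l _ => i1 _ (mT l)]
    exact Finset.sum_congr rfl fun l _ => e1 _ (mT l)
  rw [e2]
  refine integral_mono (((i1 K mK).const_mul _).add (i1 S mS))
    (integrable_finsetSum _ fun l _ => i1 _ (mT l)) fun x => ?_
  show 2 * K.indicator (fun _ => (1 : ℝ)) x + S.indicator (fun _ => (1 : ℝ)) x ≤
    ∑ l : Fin d × Bool, (K ∩ tr l K).indicator (fun _ => (1 : ℝ)) x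
  have hpos : ∀ l ∈ (Finset.univ : Finset (Fin d × Bool)),
      (0 : ℝ) ≤ (K ∩ tr l K).indicator (fun _ => (1 : ℝ)) x := fun l _ =>
    Set.indicator_nonneg (fun _ _ => zero_le_one) _
  have hone : ∀ l, Inf (En lam tau n) x l → x ∈ K →
      (K ∩ tr l K).indicator (fun _ => (1 : ℝ)) x = 1 := by
    intro l hl hx
    rw [Set.indicator_of_mem]
    exact ⟨hx, Kn_next lam hx hl⟩
  by_cases hxS : x ∈ S
  · obtain ⟨hE, a, b, c, hab, hac, hbc, ia, ib, ic⟩ := hxS
    have hxK : x ∈ K := ⟨hE, a, b, hab, ia, ib⟩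
    have hxS : x ∈ S := ⟨hE, a, b, c, hab, hac, hbc, ia, ib, ic⟩
    rw [Set.indicator_of_mem hxK, Set.indicator_of_mem hxS]
    have h3 : ∑ l ∈ ({a, b, c} : Finset (Fin d × Bool)),
        (K ∩ tr l K).indicator (fun _ => (1 : ℝ)) x = 3 := by
      rw [Finset.sum_insert (by simp [hab, hac]), Finset.sum_insert (by simp [hbc]),
        Finset.sum_singleton, hone a ia hxK, hone b ib hxK, hone c ic hxK]
      norm_num
    have h4 := Finset.sum_le_sum_of_subset_of_nonneg
      (f := fun l => (K ∩ tr l K).indicator (fun _ => (1 : ℝ)) x)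
      (Finset.subset_univ ({a, b, c} : Finset (Fin d × Bool))) fun i hi _ => hpos i hi
    rw [h3] at h4
    linarith
  · rw [Set.indicator_of_notMem hxS]
    by_cases hxK : x ∈ K
    · obtain ⟨hE, a, b, hab, ia, ib⟩ := hxK
      have hxK : x ∈ K := ⟨hE, a, b, hab, ia, ib⟩
      rw [Set.indicator_of_mem hxK]
      have h3 : ∑ l ∈ ({a, b} : Finset (Fin d × Bool)),
          (K ∩ tr l K).indicator (fun _ => (1 : ℝ)) x = 2 := by
        rw [Finset.sum_insert (by simp [hab]),
          Finset.sum_singleton, hone a ia hxK, hone b ib hxK]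
        norm_num
      have h4 := Finset.sum_le_sum_of_subset_of_nonneg
        (f := fun l => (K ∩ tr l K).indicator (fun _ => (1 : ℝ)) x)
        (Finset.subset_univ ({a, b} : Finset (Fin d × Bool))) fun i hi _ => hpos i hi
      rw [h3] at h4
      linarith
    · rw [Set.indicator_of_notMem hxK]
      have := Finset.sum_nonneg hpos
      linarith

/-- the main recursive inequality -/
theorem Col.recur (h : Col lam tau) (hd : 1 ≤ d) (n m : ℕ) (hm : 1 ≤ m)
    (hs : 4 * (3 * d + 1) * m * ((2 * d : ℕ) : ℝ) ^ 2 ≤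
      - Real.log ((bm (FreeGroup (Fin d)) lam).real (En lam tau n))) :
    (bm (FreeGroup (Fin d)) lam).real (En lam tau n) ≤ 3 * m * ((2 * d : ℕ) : ℝ) ^ 4 *
      (bm (FreeGroup (Fin d)) lam).real (En lam tau (n + m)) := by
  have hE := h.ineqE lam n m
  have hK := h.ineqK lam n m
  have hC := h.core_edges lam n
  have hSp := sparse_letters lam (h.mKn lam n)
  have hKE : (bm (FreeGroup (Fin d)) lam).real (Kn lam tau n) ≤
      (bm (FreeGroup (Fin d)) lam).real (En lam tau n) :=
    measureReal_mono (fun x hx => hx.1)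
  have ha : 0 ≤ (bm (FreeGroup (Fin d)) lam).real (En lam tau (n + m)) := measureReal_nonneg
  have hs0 : 0 ≤ (bm (FreeGroup (Fin d)) lam).real (Sn lam tau n) := measureReal_nonneg
  have hq0 : 0 ≤ (bm (FreeGroup (Fin d)) lam).real (Kn lam tau n) := measureReal_nonneg
  set e := (bm (FreeGroup (Fin d)) lam).real (En lam tau n)
  set a := (bm (FreeGroup (Fin d)) lam).real (En lam tau (n + m))
  set q := (bm (FreeGroup (Fin d)) lam).real (Kn lam tau n)
  set s := (bm (FreeGroup (Fin d)) lam).real (Sn lam tau n)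
  set sm := ∑ l : Fin d × Bool, (bm (FreeGroup (Fin d)) lam).real
        (Kn lam tau n ∩ tr l (Kn lam tau n))
  set D : ℝ := ((2 * d : ℕ) : ℝ) with hD
  have hD2 : 2 ≤ D := by
    rw [hD]; push_cast
    have : (1 : ℝ) ≤ d := by exact_mod_cast hd
    linarith
  have hd1 : (1 : ℝ) ≤ d := by exact_mod_cast hd
  have hm1 : (1 : ℝ) ≤ m := by exact_mod_cast hm
  have hq2 : q ≤ 2 * D ^ 2 * a := by
    rcases hq0.eq_or_lt with hq | hq
    · rw [← hq]; positivity
    · have hL : - Real.log e ≤ - Real.log q := by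
        have := Real.log_le_log hq hKE
        linarith
      set L := - Real.log q
      have hL2 : 4 * (3 * d + 1) * m * D ^ 2 ≤ L := hs.trans hL
      have hLpos : 0 < L := lt_of_lt_of_le (by positivity) hL2
      have h1 : L * (2 * q + s) ≤ 2 * (q * (L + (3 * d + 1))) :=
        (mul_le_mul_of_nonneg_left hC hLpos.le).trans hSp
      have h2 : L * s ≤ 2 * (3 * d + 1) * q := by nlinarith [h1]
      -- m D² s ≤ q / 2
      have h3 : 4 * (3 * d + 1) * m * D ^ 2 * s ≤ 2 * (3 * d + 1) * q :=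
        (mul_le_mul_of_nonneg_right hL2 hs0).trans h2
      have h4 : 2 * (m * D ^ 2 * s) ≤ q := by
        have h5 : (2 * (3 * d + 1) : ℝ) * (2 * (m * D ^ 2 * s)) ≤ (2 * (3 * d + 1)) * q := by
          nlinarith [h3]
        exact le_of_mul_le_mul_left h5 (by positivity)
      nlinarith [hK, h4]
  have h5 : m * q ≤ m * (2 * D ^ 2 * a) := mul_le_mul_of_nonneg_left hq2 (by positivity)
  have h6 : e ≤ D ^ 2 * (m * (2 * D ^ 2 * a) + a) := by
    refine hE.trans ?_
    exact mul_le_mul_of_nonneg_left (by linarith) (by positivity)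
  have h7 : D ^ 2 * a ≤ m * D ^ 4 * a := by
    have h8 : D ^ 2 ≤ m * D ^ 4 := by
      have h9 : D ^ 2 ≤ D ^ 4 := pow_le_pow_right₀ (by linarith) (by norm_num)
      have h10 : (0 : ℝ) ≤ D ^ 4 := by positivity
      nlinarith [h9, h10, hm1]
    exact mul_le_mul_of_nonneg_right h8 ha
  nlinarith [h6, h7]

end Pool.Agent.H649S
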