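import Pool.Agent.H649S.Bound
import Pool.Agent.H649S.Defs

/-!
An orbit isometry gives a proper edge colouring.
-/

set_option autoImplicit false
set_option linter.unusedSectionVars false

open MeasureTheory Set
open scoped ENNReal

namespace Pool.Agent.H649S

section Gen

variable {G : Type} [Group G]

theorem act_one (x : X G) : act 1 x = x := by
  funext h; show x (1⁻¹ * h) = x h; rw [inv_one, one_mul]

theorem act_mul (g h : G) (x : X G) : act (g * h) x = act g (act h x) := by
  funext k
  show x ((g * h)⁻¹ * k) = x (h⁻¹ * (g⁻¹ * k))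
  rw [mul_inv_rev, mul_assoc]

theorem act_inv_act (g : G) (x : X G) : act g⁻¹ (act g x) = x := by
  rw [← act_mul, inv_mul_cancel, act_one]

theorem wlen_one (S : Set G) : wlen S (1 : G) = 0 := by
  unfold wlen
  apply Nat.sInf_eq_zero.mpr
  left
  exact ⟨[], by simp, rfl, rfl⟩

theorem wlen_eq {S : Set G} {g : G} {n : ℕ} (h : wlen S g = n) (hn : n ≠ 0) :
    ∃ l : List G, (∀ a ∈ l, a ∈ S) ∧ l.length = n ∧ l.prod = g := by
  have hne : {n | ∃ l : List G, (∀ a ∈ l, a ∈ S) ∧ l.length = n ∧ l.prod = g}.Nonempty := by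
    by_contra hcon
    rw [Set.not_nonempty_iff_eq_empty] at hcon
    unfold wlen at h
    rw [hcon, Nat.sInf_empty] at h
    exact hn h.symm
  have := Nat.sInf_mem hne
  unfold wlen at h
  rw [h] at this
  exact this

theorem wlen_le {S : Set G} (l : List G) (hl : ∀ a ∈ l, a ∈ S) : wlen S l.prod ≤ l.length :=
  Nat.sInf_le ⟨l, hl, rfl, rfl⟩

theorem wlen_one_mem {S : Set G} {g : G} (h : wlen S g = 1) : g ∈ S := by
  obtain ⟨l, h1, h2, h3⟩ := wlen_eq h one_ne_zero
  obtain ⟨a, rfl⟩ := List.length_eq_one_iff.mp h2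
  rw [← h3]
  simpa using h1

theorem odist_exists {S : Set G} {x y : X G} {n : ℕ} (h : odist S x y = n) :
    ∃ g : G, act g x = y ∧ wlen S g = n := by
  unfold odist at h
  by_contra hcon
  push Not at hcon
  have h1 : ((n : ℕ∞) + 1) ≤ ⨅ g : G, ⨅ _ : act g x = y, (wlen S g : ℕ∞) ∨
      ∃ g : G, act g x = y ∧ wlen S g < n := by
    by_cases h2 : ∃ g : G, act g x = y ∧ wlen S g < n
    · exact Or.inr h2
    · left
      push Not at h2
      refine le_iInf fun g => le_iInf fun hg => ?_
      have h3 := hcon g hg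
      have h4 := h2 g hg
      have h5 : n + 1 ≤ wlen S g := by omega
      exact_mod_cast h5
  rcases h1 with h1 | ⟨g, h1, h2⟩
  · rw [h] at h1
    have h2 : ((n + 1 : ℕ) : ℕ∞) ≤ (n : ℕ∞) := by exact_mod_cast h1
    have := ENat.natCast_le_natCast.mp h2
    omega
  · have h3 : (⨅ g : G, ⨅ _ : act g x = y, (wlen S g : ℕ∞)) ≤ wlen S g :=
      iInf_le_of_le g (iInf_le _ h1)
    rw [h] at h3
    have := ENat.natCast_le_natCast.mp h3
    omega

theorem odist_self (S : Set G) (x : X G) : odist S x x = 0 := by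
  unfold odist
  apply le_antisymm _ bot_le
  refine iInf_le_of_le 1 (iInf_le_of_le (act_one x) ?_)
  rw [wlen_one]
  rfl

/-- the orbit distance on a free orbit -/
theorem odist_free {S : Set G} {x : X G} (hx : ∀ g : G, act g x = x → g = 1) (g : G) :
    odist S x (act g x) = wlen S g := by
  unfold odist
  apply le_antisymm
  · exact iInf_le_of_le g (iInf_le _ rfl)
  · refine le_iInf fun k => le_iInf fun hk => ?_
    have : k = g := by
      have h1 : act (g⁻¹ * k) x = x := by rw [act_mul, hk, act_inv_act]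
      have := hx _ h1
      exact (inv_mul_eq_one.mp this).symm
    rw [this]

end Gen

section Free

variable {d : ℕ}

theorem pair_null {V : Type} {a b : V} (hab : a ≠ b) :
    ∀ᵐ x ∂(bm V (volume : Measure unitInterval)), x a ≠ x b := by
  classical
  -- resample the label at `a`
  have hM : MeasurableSet {x : V → unitInterval | x a ≠ x b} :=
    (measurableSet_eq_fun (measurable_pi_apply a) (measurable_pi_apply b)).compl
  refine ae_of_spl (volume : Measure unitInterval) {a} hM fun x => ?_
  have h1 : (bm V (volume : Measure unitInterval)) ((fun y => y a) ⁻¹' {x b}) = 0 := by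
    have h2 := measurePreserving_eval_infinitePi (fun _ : V => (volume : Measure unitInterval)) a
    have h3 := h2.measure_preimage (measurableSet_singleton (x b)).nullMeasurableSet
    have h4 : (volume : Measure unitInterval) {x b} = 0 := measure_singleton _
    rw [h4] at h3
    exact h3
  rw [measure_eq_zero_iff_ae_notMem] at h1
  filter_upwards [h1] with y hy h
  rw [spl_of_mem (Set.mem_singleton a), spl_of_notMem (fun h => hab h.symm)] at h
  exact hy h

theorem free_ae : ∀ᵐ x ∂(bern (FF d)), ∀ g : FF d, act g x = x → g = 1 := by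
  rw [ae_all_iff]
  intro g
  by_cases hg : g = 1
  · exact Filter.Eventually.of_forall fun _ _ => hg
  · have hne : (1 : FF d) ≠ g⁻¹ := fun h => hg (by rw [← inv_inv g, ← h, inv_one])
    filter_upwards [pair_null hne] with x hx h
    exfalso
    apply hx
    have := congrFun h 1
    change x (g⁻¹ * 1) = x 1 at this
    rw [mul_one] at this
    exact this.symm

theorem act_eq_sh (g : FF d) (x : X (FF d)) : act g x = sh g⁻¹ x := rfl

theorem act_gen_inv (l : Fin d × Bool) (x : X (FF d)) : act (gen l)⁻¹ x = shl l x := by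
  funext h
  show x (((gen l)⁻¹)⁻¹ * h) = x (gen l * h)
  rw [inv_inv]

theorem gen_mem (l : Fin d × Bool) : gen l ∈ SF d := by
  rcases l with ⟨i, b⟩
  cases b
  · exact ⟨i, Or.inr (gen_false i)⟩
  · exact ⟨i, Or.inl (gen_true i)⟩

theorem gen_inv_mem (l : Fin d × Bool) : (gen l)⁻¹ ∈ SF d := by
  rw [← gen_bar]; exact gen_mem _

theorem gen_inj {l k : Fin d × Bool} (h : gen l = gen k) : l = k := by
  have h1 := congrArg FreeGroup.toWord h
  rw [toWord_gen, toWord_gen] at h1
  simpa using h1

theorem gen_ne_one (l : Fin d × Bool) : gen l ≠ 1 := by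
  intro h
  have h1 := congrArg FreeGroup.toWord h
  rw [toWord_gen] at h1
  simp at h1

theorem wlen_ge (g : FF d) : g.toWord.length ≤ wlen (SF d) g := by
  classical
  have key : ∀ l : List (FF d), (∀ a ∈ l, a ∈ SF d) → l.prod.toWord.length ≤ l.length := by
    intro l
    induction l with
    | nil => intro _; simp
    | cons a l ih =>
      intro hl
      rw [List.prod_cons]
      have h1 := ih fun b hb => hl b (List.mem_cons_of_mem _ hb)
      have h2 : FreeGroup.norm (a * l.prod) ≤ FreeGroup.norm a + FreeGroup.norm l.prod :=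
        FreeGroup.norm_mul_le _ _
      have h3 : FreeGroup.norm a = 1 := by
        obtain ⟨i, h | h⟩ := hl a List.mem_cons_self
        · rw [h, FreeGroup.norm_of]
        · rw [h, FreeGroup.norm_inv_eq, FreeGroup.norm_of]
      change (a * l.prod).toWord.length ≤ a.norm + l.prod.toWord.length at h2
      rw [List.length_cons]
      omega
  have hex : ∃ l : List (FF d), (∀ a ∈ l, a ∈ SF d) ∧ l.prod = g := by
    refine ⟨g.toWord.map gen, ?_, ?_⟩
    · intro a ha
      obtain ⟨l, _, rfl⟩ := List.mem_map.mp ha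
      exact gen_mem l
    · have : ∀ w : List (Fin d × Bool), (w.map gen).prod = FreeGroup.mk w := by
        intro w
        induction w with
        | nil => rfl
        | cons k w ih =>
          rw [List.map_cons, List.prod_cons, ih]
          unfold gen
          rw [FreeGroup.mul_mk]
          rfl
      rw [this, FreeGroup.mk_toWord]
  have hne : {n | ∃ l : List (FF d), (∀ a ∈ l, a ∈ SF d) ∧ l.length = n ∧ l.prod = g}.Nonempty := by
    obtain ⟨l, h1, h2⟩ := hex
    exact ⟨l.length, l, h1, rfl, h2⟩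
  obtain ⟨l, h1, h2, h3⟩ := Nat.sInf_mem hne
  have h4 := key l h1
  rw [h3] at h4
  unfold wlen
  omega

theorem wlen_gen_inv (l : Fin d × Bool) : wlen (SF d) (gen l)⁻¹ = 1 := by
  apply le_antisymm
  · have := wlen_le (S := SF d) [(gen l)⁻¹] (by simpa using gen_inv_mem l)
    simpa using this
  · have := wlen_ge (gen l)⁻¹
    rw [← gen_bar, toWord_gen] at this
    rw [← gen_bar]
    simpa using this

theorem sg_sq (j : Fin (2 * d)) : sg j * sg j = (1 : Gam d) := by
  unfold sg
  rw [← map_mul]
  have : (Multiplicative.ofAdd (1 : ZMod 2)) * Multiplicative.ofAdd 1 = 1 := by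
    rw [← ofAdd_add]
    rfl
  rw [this, map_one]

theorem sg_swap {j : Fin (2 * d)} {x y : X (Gam d)} (h : y = act (sg j) x) :
    x = act (sg j) y := by
  rw [h, ← act_mul, sg_sq, act_one]

instance : Countable (Gam d) := by
  have h : Function.Surjective (Con.mk' (conGen (Monoid.CoprodI.Rel
      fun _ : Fin (2 * d) => Multiplicative (ZMod 2)))) := Con.mk'_surjective
  have : Countable (FreeMonoid (Σ _ : Fin (2 * d), Multiplicative (ZMod 2))) := by
    unfold FreeMonoid
    infer_instance
  exact h.countable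

end Free

section T

variable {d : ℕ}

open Classical in
/-- the least index in the local rule -/
noncomputable def pick (hd : 0 < 2 * d) (P : Set (FF d × Fin (2 * d))) (l : Fin d × Bool) :
    Fin (2 * d) :=
  if h : ∃ j : Fin (2 * d), ((gen l)⁻¹, j) ∈ P then
    (Finset.univ.filter fun j : Fin (2 * d) => ((gen l)⁻¹, j) ∈ P).min' (by
      obtain ⟨j, hj⟩ := h
      exact ⟨j, by simp [hj]⟩)
  else ⟨0, hd⟩

theorem pick_mem (hd : 0 < 2 * d) {P : Set (FF d × Fin (2 * d))} {l : Fin d × Bool}
    (h : ∃ j : Fin (2 * d), ((gen l)⁻¹, j) ∈ P) : ((gen l)⁻¹, pick hd P l) ∈ P := by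
  classical
  unfold pick
  rw [dif_pos h]
  have := Finset.min'_mem (Finset.univ.filter fun j : Fin (2 * d) => ((gen l)⁻¹, j) ∈ P) (by
      obtain ⟨j, hj⟩ := h
      exact ⟨j, by simp [hj]⟩)
  exact (Finset.mem_filter.mp this).2

theorem pick_congr (hd : 0 < 2 * d) {P Q : Set (FF d × Fin (2 * d))} {l k : Fin d × Bool}
    (h : ∀ j : Fin (2 * d), ((gen l)⁻¹, j) ∈ P ↔ ((gen k)⁻¹, j) ∈ Q) :
    pick hd P l = pick hd Q k := by
  classical
  unfold pick
  have h1 : (∃ j : Fin (2 * d), ((gen l)⁻¹, j) ∈ P) ↔ ∃ j : Fin (2 * d), ((gen k)⁻¹, j) ∈ Q :=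
    exists_congr h
  by_cases h2 : ∃ j : Fin (2 * d), ((gen l)⁻¹, j) ∈ P
  · rw [dif_pos h2, dif_pos (h1.mp h2)]
    congr 1
    ext j
    simp [h j]
  · rw [dif_neg h2, dif_neg (fun h3 => h2 (h1.mpr h3))]

variable {Phi : X (FF d) → X (Gam d)}

theorem measurable_act {G : Type} [Group G] (g : G) : Measurable (act g : X G → X G) := by
  rw [measurable_pi_iff]
  intro h
  exact measurable_pi_apply _

theorem measurableSet_rule (hPhi : Measurable Phi) (p : FF d × Fin (2 * d)) :
    MeasurableSet {x | p ∈ rule Phi x} := by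
  have h1 : {x | p ∈ rule Phi x} = {x : X (FF d) | p.1 ∈ SF d} ∩
      {x | Phi (act p.1 x) = act (sg p.2) (Phi x)} := rfl
  rw [h1]
  refine (MeasurableSet.const _).inter ?_
  have h2 : {x | Phi (act p.1 x) = act (sg p.2) (Phi x)} =
      ⋂ h : Gam d, {x | Phi (act p.1 x) h = act (sg p.2) (Phi x) h} := by
    ext x
    simp only [Set.mem_iInter]
    exact funext_iff
  rw [h2]
  refine MeasurableSet.iInter fun h => ?_
  exact measurableSet_eq_fun
    ((measurable_pi_apply h).comp (hPhi.comp (measurable_act _)))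
    ((measurable_pi_apply h).comp ((measurable_act _).comp hPhi))

/-- a function of finitely many measurable conditions is measurable -/
theorem measurable_pick (hd : 0 < 2 * d) (hPhi : Measurable Phi) :
    Measurable fun x => pick hd (rule Phi x) := by
  classical
  have h1 : Measurable fun x : X (FF d) =>
      (fun q : (Fin d × Bool) × Fin (2 * d) => ((gen q.1)⁻¹, q.2) ∈ rule Phi x) := by
    rw [measurable_pi_iff]
    intro q
    exact measurableSet_setOfPred.mp (measurableSet_rule hPhi _)
  have h2 : (fun x => pick hd (rule Phi x)) =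
      (fun f : ((Fin d × Bool) × Fin (2 * d)) → Prop =>
        pick hd {p | ∃ q : (Fin d × Bool) × Fin (2 * d), p = ((gen q.1)⁻¹, q.2) ∧ f q}) ∘
      fun x : X (FF d) =>
        (fun q : (Fin d × Bool) × Fin (2 * d) => ((gen q.1)⁻¹, q.2) ∈ rule Phi x) := by
    funext x l
    apply pick_congr
    intro j
    constructor
    · intro h
      exact ⟨(l, j), rfl, h⟩
    · rintro ⟨q, h3, h4⟩
      rw [h3]
      exact h4
  rw [h2]
  exact Measurable.of_discrete.comp h1

theorem iso_col {d : ℕ} (hd : 0 < 2 * d) {Phi : X (FF d) → X (Gam d)} (hPhi : Measurable Phi)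
    (hiso : OrbitIso Phi) :
    Col (volume : Measure unitInterval) (fun x => pick hd (rule Phi x)) := by
  -- everything happens at all points of almost every orbit
  have hall : ∀ᵐ x ∂(bern (FF d)), ∀ k : FF d, (∀ g : FF d,
      odist (SG d) (Phi (act k x)) (Phi (act g (act k x))) =
        odist (SF d) (act k x) (act g (act k x))) ∧
      (∀ g : FF d, act g (act k x) = act k x → g = 1) := by
    rw [ae_all_iff]
    intro k
    exact (ae_sh (volume : Measure unitInterval) k⁻¹ hiso).and
      (ae_sh (volume : Measure unitInterval) k⁻¹ free_ae)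
  have hex : ∀ᵐ x ∂(bern (FF d)), ∀ l : Fin d × Bool, ∃ j : Fin (2 * d),
      ((gen l)⁻¹, j) ∈ rule Phi x := by
    filter_upwards [hall] with x hx l
    have h1 := (hx 1).1 (gen l)⁻¹
    have h2 := (hx 1).2
    rw [act_one] at h1 h2
    rw [odist_free h2, wlen_gen_inv] at h1
    obtain ⟨g, hg1, hg2⟩ := odist_exists h1
    obtain ⟨j, rfl⟩ := wlen_one_mem hg2
    exact ⟨j, gen_inv_mem l, hg1.symm⟩
  refine ⟨measurable_pick hd hPhi, ?_, ?_⟩
  · filter_upwards [hall, hex] with x hx hxe
    intro l k hlk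
    by_contra hne
    have h1 := (pick_mem hd (hxe l)).2
    have h2 := (pick_mem hd (hxe k)).2
    have hlk' : pick hd (rule Phi x) l = pick hd (rule Phi x) k := hlk
    rw [hlk'] at h1
    change Phi (act (gen l)⁻¹ x) = _ at h1
    change Phi (act (gen k)⁻¹ x) = _ at h2
    have h3 : Phi (act (gen l)⁻¹ x) = Phi (act (gen k)⁻¹ x) := h1.trans h2.symm
    -- distance between the two neighbors
    have h4 := (hx (gen l)⁻¹).1 ((gen k)⁻¹ * gen l)
    have h5 := (hx (gen l)⁻¹).2
    have h6 : act ((gen k)⁻¹ * gen l) (act (gen l)⁻¹ x) = act (gen k)⁻¹ x := by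
      rw [← act_mul, mul_assoc, mul_inv_cancel, mul_one]
    rw [h6, h3, odist_self] at h4
    obtain ⟨g, hg1, hg2⟩ := odist_exists (n := 0) h4.symm
    have h7 : g = (gen k)⁻¹ * gen l := by
      have h8 : act (((gen k)⁻¹ * gen l)⁻¹ * g) (act (gen l)⁻¹ x) = act (gen l)⁻¹ x := by
        rw [act_mul, hg1, ← h6, act_inv_act]
      have := h5 _ h8
      exact (inv_mul_eq_one.mp this).symm
    have h9 := wlen_ge g
    rw [hg2] at h9
    have h10 : g = 1 := by
      apply FreeGroup.toWord_eq_nil_iff.mp
      exact List.length_eq_zero_iff.mp (by omega)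
    rw [h7] at h10
    exact hne (gen_inj (inv_mul_eq_one.mp h10).symm)
  · refine Filter.Eventually.of_forall fun x l => ?_
    apply pick_congr
    intro j
    have e1 : act (gen (bar l))⁻¹ (shl l x) = x := by
      rw [act_gen_inv, shl_bar]
    constructor
    · rintro ⟨_, h⟩
      refine ⟨gen_inv_mem l, ?_⟩
      change Phi (act (gen (bar l))⁻¹ (shl l x)) = act (sg j) (Phi (shl l x)) at h
      show Phi (act (gen l)⁻¹ x) = act (sg j) (Phi x)
      rw [e1] at h
      rw [act_gen_inv]
      exact sg_swap h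
    · rintro ⟨_, h⟩
      refine ⟨gen_inv_mem _, ?_⟩
      change Phi (act (gen l)⁻¹ x) = act (sg j) (Phi x) at h
      show Phi (act (gen (bar l))⁻¹ (shl l x)) = act (sg j) (Phi (shl l x))
      rw [e1]
      rw [act_gen_inv] at h
      exact sg_swap h

theorem glue_eq {d : ℕ} (n : ℕ) (x z : X (FF d)) :
    glue n x z = spl {h | ¬ wlen (SF d) h ≤ n} x z := by
  funext h
  by_cases hh : wlen (SF d) h ≤ n
  · have h2 : h ∉ {h : FF d | ¬ wlen (SF d) h ≤ n} := fun h' => h' hh
    rw [spl_of_notMem h2]
    unfold glue; rw [if_pos hh]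
  · rw [spl_of_mem (show h ∈ {h | ¬ wlen (SF d) h ≤ n} from hh)]
    unfold glue; rw [if_neg hh]

theorem local_det {d : ℕ} (hd : 0 < 2 * d) {Phi : X (FF d) → X (Gam d)} (hPhi : Measurable Phi)
    (n : ℕ) : ∀ᵐ x ∂(bern (FF d)), Local Phi n x →
      ∀ w : List (Fin d × Bool), n + 1 ≤ w.length →
        Det (volume : Measure unitInterval) (Cone w) (fun x => pick hd (rule Phi x)) x := by
  have h1 : ∀ᵐ x ∂(bern (FF d)), ∀ w : List (Fin d × Bool), n + 1 ≤ w.length →
      (Det (volume : Measure unitInterval) {h | ¬ wlen (SF d) h ≤ n}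
        (fun x => pick hd (rule Phi x)) x →
      Det (volume : Measure unitInterval) (Cone w) (fun x => pick hd (rule Phi x)) x) := by
    rw [ae_all_iff]
    intro w
    by_cases hw : n + 1 ≤ w.length
    · have hsub : Cone w ⊆ {h : FF d | ¬ wlen (SF d) h ≤ n} := by
        intro h hh hle
        have h2 := wlen_ge h
        have h3 : w.length ≤ h.toWord.length := List.IsPrefix.length_le hh
        omega
      filter_upwards [det_mono (volume : Measure unitInterval) hsub (measurable_pick hd hPhi)]
        with x hx _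
      exact hx
    · exact Filter.Eventually.of_forall fun x h => absurd h hw
  filter_upwards [h1] with x hx hloc w hw
  apply hx w hw
  obtain ⟨P, hP⟩ := hloc
  refine ⟨pick hd P, ?_⟩
  filter_upwards [hP] with z hz
  rw [← glue_eq, hz]

theorem rule_congr {d : ℕ} {Phi Psi : X (FF d) → X (Gam d)} {x : X (FF d)}
    (h : ∀ g : FF d, Phi (act g x) = Psi (act g x)) : rule Phi x = rule Psi x := by
  have h1 := h 1
  rw [act_one] at h1
  ext p
  unfold rule
  simp only [Set.mem_ofPred_eq]
  rw [h, h1]

theorem orbit_ae {d : ℕ} {P : X (FF d) → Prop} (h : ∀ᵐ x ∂(bern (FF d)), P x) :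
    ∀ᵐ x ∂(bern (FF d)), ∀ g : FF d, P (act g x) := by
  rw [ae_all_iff]
  exact fun g => ae_sh (volume : Measure unitInterval) g⁻¹ h

theorem iso_congr {d : ℕ} {Phi Psi : X (FF d) → X (Gam d)} (h : Phi =ᵐ[bern (FF d)] Psi)
    (hiso : OrbitIso Phi) : OrbitIso Psi := by
  filter_upwards [hiso, orbit_ae h] with x h1 h2 g
  have h3 := h2 1
  rw [act_one] at h3
  rw [← h2 g, ← h3]
  exact h1 g

theorem local_congr {d : ℕ} {Phi Psi : X (FF d) → X (Gam d)} (h : Phi =ᵐ[bern (FF d)] Psi)
    (n : ℕ) : ∀ᵐ x ∂(bern (FF d)), Local Phi n x → Local Psi n x := by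
  have h1 : ∀ᵐ x ∂(bern (FF d)), rule Phi x = rule Psi x := by
    filter_upwards [orbit_ae h] with x hx
    exact rule_congr hx
  have h2 := ae_spl (volume : Measure unitInterval) {h | ¬ wlen (SF d) h ≤ n} h1
  filter_upwards [h2] with x hx hl
  obtain ⟨P, hP⟩ := hl
  refine ⟨P, ?_⟩
  filter_upwards [hx, hP] with z hz hPz
  rw [glue_eq] at hPz ⊢
  rw [← hz, hPz]

/-- undetermined configurations are not local -/
theorem En_le_local {d : ℕ} (hd : 0 < 2 * d) {Phi : X (FF d) → X (Gam d)}
    (hPhi : AEMeasurable Phi (bern (FF d))) (hiso : OrbitIso Phi) :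
    ∃ tau : (FreeGroup (Fin d) → unitInterval) → (Fin d × Bool → Fin (2 * d)),
      Col (volume : Measure unitInterval) tau ∧ ∀ n : ℕ,
        (bm (FreeGroup (Fin d)) (volume : Measure unitInterval)).real
          (En (volume : Measure unitInterval) tau (n + 1)) ≤
        (bern (FF d)).real {x | ¬ Local Phi n x} := by
  have e := hPhi.ae_eq_mk
  have hiso' := iso_congr e hiso
  refine ⟨_, iso_col hd hPhi.measurable_mk hiso', fun n => ?_⟩
  have h1 : ∀ᵐ x ∂(bern (FF d)),
      x ∈ En (volume : Measure unitInterval)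
        (fun x => pick hd (rule (hPhi.mk Phi) x)) (n + 1) → x ∈ {x | ¬ Local Phi n x} := by
    filter_upwards [local_det hd hPhi.measurable_mk n, local_congr e n] with x hx hx2 hE hL
    obtain ⟨w, _, hw2, hw3⟩ := hE
    exact hw3 (hx (hx2 hL) w hw2)
  exact ENNReal.toReal_mono (by
    have : IsProbabilityMeasure (bern (FF d)) :=
      inferInstanceAs (IsProbabilityMeasure (bm (FreeGroup (Fin d)) _))
    finiteness) (measure_mono_ae h1)

end T

end Pool.Agent.H649S
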