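import Mathlib

/-!
Reduced words of the free group: multiplication by one letter on the left.
-/

set_option autoImplicit false

namespace Pool.Agent.H649S

variable {d : ℕ}

/-- the inverse letter -/
def bar (l : Fin d × Bool) : Fin d × Bool := (l.1, !l.2)

@[simp] theorem bar_bar (l : Fin d × Bool) : bar (bar l) = l := by
  unfold bar; simp

theorem bar_ne (l : Fin d × Bool) : bar l ≠ l := by
  intro h
  have := congrArg Prod.snd h
  simp [bar] at this

theorem bar_inj {l k : Fin d × Bool} (h : bar l = bar k) : l = k := by
  rw [← bar_bar l, h, bar_bar]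

/-- the group element of a letter -/
def gen (l : Fin d × Bool) : FreeGroup (Fin d) := FreeGroup.mk [l]

theorem gen_bar (l : Fin d × Bool) : gen (bar l) = (gen l)⁻¹ := by
  unfold gen bar
  rw [FreeGroup.inv_mk]
  rfl

theorem gen_true (i : Fin d) : gen (i, true) = FreeGroup.of i := rfl

theorem gen_false (i : Fin d) : gen (i, false) = (FreeGroup.of i)⁻¹ := by
  rw [← gen_true, ← gen_bar]; rfl

theorem gen_bar_mul (l : Fin d × Bool) (h : FreeGroup (Fin d)) : gen (bar l) * (gen l * h) = h := by
  rw [gen_bar]; group

theorem gen_mul_bar (l : Fin d × Bool) (h : FreeGroup (Fin d)) : gen l * (gen (bar l) * h) = h := by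
  rw [gen_bar]; group

theorem toWord_gen (l : Fin d × Bool) : (gen l).toWord = [l] := by
  unfold gen; rw [FreeGroup.toWord_mk]; rfl

theorem word_gen_mul (l : Fin d × Bool) (h : FreeGroup (Fin d)) :
    (gen l * h).toWord = FreeGroup.reduce (l :: h.toWord) := by
  rw [FreeGroup.toWord_mul, toWord_gen]; rfl

theorem word_cancel {l : Fin d × Bool} {h : FreeGroup (Fin d)} {t : List (Fin d × Bool)}
    (hh : h.toWord = bar l :: t) : (gen l * h).toWord = t := by
  rw [word_gen_mul, FreeGroup.reduce.cons, FreeGroup.reduce_toWord, hh]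
  simp [bar]

theorem word_cons {l : Fin d × Bool} {h : FreeGroup (Fin d)}
    (hh : h.toWord.head? ≠ some (bar l)) : (gen l * h).toWord = l :: h.toWord := by
  rw [word_gen_mul, FreeGroup.reduce.cons, FreeGroup.reduce_toWord]
  rcases hw : h.toWord with _ | ⟨k, t⟩
  · rfl
  · rw [hw] at hh
    have h1 : ¬ (l.1 = k.1 ∧ l.2 = !k.2) := by
      rintro ⟨h1, h2⟩
      apply hh
      simp only [List.head?_cons, Option.some.injEq]
      unfold bar
      ext
      · simp [h1]
      · simp [h2]
    simp only [h1, if_false]

theorem head_alt (l : Fin d × Bool) (h : FreeGroup (Fin d)) :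
    h.toWord.head? = some (bar l) ∨ (gen l * h).toWord.head? = some l := by
  by_cases hh : h.toWord.head? = some (bar l)
  · exact Or.inl hh
  · right
    rw [word_cons hh]
    rfl

/-- the words of neighbors are not first-letter ambiguous -/
theorem toWord_reduced (h : FreeGroup (Fin d)) {l k : Fin d × Bool} {t : List (Fin d × Bool)}
    (hh : h.toWord = l :: k :: t) : k ≠ bar l := by
  intro hk
  have h1 := FreeGroup.reduce_toWord h
  rw [hh, hk, FreeGroup.reduce.cons] at h1
  have h2 : FreeGroup.reduce (bar l :: t) = bar l :: t := by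
    have h3 : (gen (bar l) * h).toWord = bar l :: t := by
      apply word_cancel
      rw [bar_bar, hh, hk]
    rw [← h3]
    exact FreeGroup.reduce_toWord _
  rw [h2] at h1
  simp [bar] at h1
  have h4 := congrArg List.length h1
  simp at h4
  omega

end Pool.Agent.H649S
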