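import Pool.Agent.H649S.Ord
import Pool.Agent.H649S.Word

/-!
The sum of the mutual informations of an event with its translates by the generators is at most
its entropy.
-/

set_option autoImplicit false
set_option linter.unusedSectionVars false

open MeasureTheory Set

namespace Pool.Agent.H649S

/-- sums along injective maps -/
theorem sum_inj_le {V : Type} (ps : V → ℝ) (W U : Finset V) (e : V → V)
    (he : Function.Injective e) (h0 : ∀ v, 0 ≤ ps v) (hW : ∀ v, v ∉ W → ps v = 0) :
    ∑ v ∈ U, ps (e v) ≤ ∑ w ∈ W, ps w := by
  classical
  rw [← Finset.sum_image (f := ps) (g := e) (s := U) (fun a _ b _ h => he h)]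
  calc ∑ x ∈ U.image e, ps x = ∑ x ∈ (U.image e) ∩ W, ps x := by
        symm
        apply Finset.sum_subset Finset.inter_subset_left
        intro x hx hx'
        apply hW
        intro h
        exact hx' (Finset.mem_inter.mpr ⟨hx, h⟩)
    _ ≤ ∑ w ∈ W, ps w :=
        Finset.sum_le_sum_of_subset_of_nonneg Finset.inter_subset_right fun i _ _ => h0 i

variable {d : ℕ}

/-- the shift by a letter -/
def shl {Lab : Type} (l : Fin d × Bool) (x : FreeGroup (Fin d) → Lab) :
    FreeGroup (Fin d) → Lab := rl (Equiv.mulLeft (gen l)) x

theorem shl_apply {Lab : Type} (l : Fin d × Bool) (x : FreeGroup (Fin d) → Lab)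
    (h : FreeGroup (Fin d)) : shl l x h = x (gen l * h) := rfl

theorem forest (ph : FreeGroup (Fin d) → ℝ) (W : Finset (FreeGroup (Fin d)))
    (U : Fin d → Finset (FreeGroup (Fin d)))
    (h0 : ∀ v, 0 ≤ ph v) (hW : ∀ v, v ∉ W → ph v = 0) :
    ∑ i : Fin d, ∑ v ∈ U i, min (ph v) (ph ((FreeGroup.of i)⁻¹ * v)) ≤ ∑ w ∈ W, ph w := by
  classical
  have key : ∀ i : Fin d, ∑ v ∈ U i, min (ph v) (ph ((FreeGroup.of i)⁻¹ * v)) ≤
      ∑ w ∈ W, (if w.toWord.head? = some (i, true) then ph w else 0) +
      ∑ w ∈ W, (if w.toWord.head? = some (i, false) then ph w else 0) := by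
    intro i
    have h1 : ∀ v, min (ph v) (ph ((FreeGroup.of i)⁻¹ * v)) ≤
        (if v.toWord.head? = some (i, true) then ph v else 0) +
        (if ((FreeGroup.of i)⁻¹ * v).toWord.head? = some (i, false) then
          ph ((FreeGroup.of i)⁻¹ * v) else 0) := by
      intro v
      have n1 : 0 ≤ (if v.toWord.head? = some (i, true) then ph v else 0) := by
        split_ifs
        · exact h0 v
        · exact le_rfl
      have n2 : 0 ≤ (if ((FreeGroup.of i)⁻¹ * v).toWord.head? = some (i, false) then
          ph ((FreeGroup.of i)⁻¹ * v) else 0) := by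
        split_ifs
        · exact h0 _
        · exact le_rfl
      rcases head_alt (i, false) v with h | h
      · have h' : v.toWord.head? = some (i, true) := h
        rw [if_pos h'] at n1 ⊢
        exact (min_le_left _ _).trans (le_add_of_nonneg_right n2)
      · rw [gen_false] at h
        rw [if_pos h] at n2 ⊢
        exact (min_le_right _ _).trans (le_add_of_nonneg_left n1)
    refine (Finset.sum_le_sum fun v _ => h1 v).trans ?_
    rw [Finset.sum_add_distrib]
    refine add_le_add ?_ ?_
    · refine sum_inj_le (fun w => if w.toWord.head? = some (i, true) then ph w else 0) W (U i) id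
        Function.injective_id ?_ ?_
      · intro v
        show 0 ≤ (if v.toWord.head? = some (i, true) then ph v else 0)
        split_ifs
        · exact h0 v
        · exact le_rfl
      · intro v hv
        show (if v.toWord.head? = some (i, true) then ph v else 0) = 0
        rw [hW v hv]
        simp
    · refine sum_inj_le (fun w => if w.toWord.head? = some (i, false) then ph w else 0) W (U i)
        (fun v => (FreeGroup.of i)⁻¹ * v) (mul_right_injective _) ?_ ?_
      · intro v
        show 0 ≤ (if v.toWord.head? = some (i, false) then ph v else 0)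
        split_ifs
        · exact h0 v
        · exact le_rfl
      · intro v hv
        show (if v.toWord.head? = some (i, false) then ph v else 0) = 0
        rw [hW v hv]
        simp
  refine (Finset.sum_le_sum fun i _ => key i).trans ?_
  have h2 : ∑ i : Fin d, (∑ w ∈ W, (if w.toWord.head? = some (i, true) then ph w else 0) +
      ∑ w ∈ W, (if w.toWord.head? = some (i, false) then ph w else 0)) =
      ∑ w ∈ W, ∑ l : Fin d × Bool, (if w.toWord.head? = some l then ph w else 0) := by
    rw [Finset.sum_add_distrib, Finset.sum_comm, Finset.sum_comm (s := Finset.univ),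
      ← Finset.sum_add_distrib]
    refine Finset.sum_congr rfl fun w _ => ?_
    rw [Fintype.sum_prod_type, ← Finset.sum_add_distrib]
    refine Finset.sum_congr rfl fun i _ => ?_
    rw [Fintype.sum_bool]
  rw [h2]
  refine Finset.sum_le_sum fun w _ => ?_
  rcases hw : w.toWord.head? with _ | l
  · simp
    exact h0 w
  · have : ∀ k : Fin d × Bool, (if some l = some k then ph w else 0) =
        if k = l then ph w else 0 := by
      intro k
      by_cases hk : k = l
      · rw [hk]; simp
      · rw [if_neg hk, if_neg (fun h => hk (Option.some.inj h).symm)]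
    simp only [this]
    rw [Finset.sum_ite_eq' Finset.univ l]
    simp

end Pool.Agent.H649S
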