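import Pool.Agent.H649S.MI

/-!
The sum of the mutual informations of an event with its translates by the generators is at most
its entropy: events depending on finitely many labels.
-/

set_option autoImplicit false
set_option linter.unusedSectionVars false

open MeasureTheory Set

namespace Pool.Agent.H649S

variable {d : ℕ} {Lab : Type} [MeasurableSpace Lab] (lam : Measure Lab) [IsProbabilityMeasure lam]

/-- the translate of an event by a letter -/
def tr (l : Fin d × Bool) (K : Set (FreeGroup (Fin d) → Lab)) : Set (FreeGroup (Fin d) → Lab) :=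
  {x | shl l x ∈ K}

theorem measurableSet_tr (l : Fin d × Bool) {K : Set (FreeGroup (Fin d) → Lab)}
    (hK : MeasurableSet K) : MeasurableSet (tr l K) := measurable_rl _ hK

theorem Dep_tr (l : Fin d × Bool) {K : Set (FreeGroup (Fin d) → Lab)}
    {W : Set (FreeGroup (Fin d))} (h : Dep K W) : Dep (tr l K) ((fun g => gen l * g) '' W) := by
  intro x y hxy
  exact h _ _ fun v hv => hxy _ ⟨v, hv, rfl⟩

theorem mi_sum_aux [LinearOrder (FreeGroup (Fin d))]
    (hinv : ∀ a u v : FreeGroup (Fin d), a * u < a * v ↔ u < v)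
    {K : Set (FreeGroup (Fin d) → Lab)} (hK : MeasurableSet K)
    (W : Finset (FreeGroup (Fin d))) (hW : Dep K (W : Set (FreeGroup (Fin d)))) :
    ∑ i : Fin d, miE lam K (tr (i, true) K) ∅ ≤ gE lam K ∅ := by
  classical
  set ph : FreeGroup (Fin d) → ℝ := fun v => gE lam K {u | u < v} - gE lam K {u | u ≤ v} with hph
  have ph0 : ∀ v, 0 ≤ ph v := fun v =>
    sub_nonneg.mpr (gE_anti lam hK fun u (hu : u < v) => hu.le)
  have phW : ∀ v, v ∉ W → ph v = 0 := by
    intro v hv
    rw [hph]
    show gE lam K {u | u < v} - gE lam K {u | u ≤ v} = 0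
    rw [gE_congr lam hW (S := {u | u < v}) (S' := {u | u ≤ v}), sub_self]
    intro w hw
    have hne : w ≠ v := fun h => hv (h ▸ Finset.mem_coe.mp hw)
    exact ⟨fun h => le_of_lt h, fun h => lt_of_le_of_ne h hne⟩
  have htot : ∑ w ∈ W, ph w = gE lam K ∅ := by
    have h1 := tele (fun S => gE lam K S) W
    rw [gE_full lam hW (S := (W : Set (FreeGroup (Fin d)))) subset_rfl, sub_zero] at h1
    rw [h1]
    refine Finset.sum_congr rfl fun v _ => ?_
    rw [hph]
    show gE lam K {u | u < v} - gE lam K {u | u ≤ v} = _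
    congr 1
    · apply gE_congr lam hW
      intro w hw
      exact ⟨fun h => ⟨Finset.mem_coe.mp hw, h⟩, fun h => h.2⟩
    · apply gE_congr lam hW
      intro w hw
      exact ⟨fun h => ⟨Finset.mem_coe.mp hw, h⟩, fun h => h.2⟩
  set U : Fin d → Finset (FreeGroup (Fin d)) :=
    fun i => W ∪ W.image (fun g => gen (i, true) * g) with hU
  have main : ∀ i : Fin d, miE lam K (tr (i, true) K) ∅ ≤
      ∑ v ∈ U i, min (ph v) (ph ((FreeGroup.of i)⁻¹ * v)) := by
    intro i
    have hWU : (W : Set (FreeGroup (Fin d))) ⊆ (U i : Set _) := by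
      intro g hg
      exact Finset.mem_coe.mpr (Finset.mem_union_left _ (Finset.mem_coe.mp hg))
    have hWU' : ((fun g => gen (i, true) * g) '' (W : Set (FreeGroup (Fin d)))) ⊆
        (U i : Set _) := by
      rintro g ⟨g', hg', rfl⟩
      exact Finset.mem_coe.mpr (Finset.mem_union_right _
        (Finset.mem_image_of_mem _ (Finset.mem_coe.mp hg')))
    have dep1 : Dep K (U i : Set _) := hW.mono hWU
    have dep2 : Dep (tr (i, true) K) (U i : Set _) := (Dep_tr (i, true) hW).mono hWU'
    have h1 := tele (fun S => miE lam K (tr (i, true) K) S) (U i)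
    rw [miE_full lam dep1 dep2 (S := (U i : Set _)) subset_rfl, sub_zero] at h1
    rw [h1]
    refine Finset.sum_le_sum fun v _ => ?_
    have hsub : {u | u ∈ U i ∧ u < v} ⊆ {u | u ∈ U i ∧ u ≤ v} := fun u hu => ⟨hu.1, hu.2.le⟩
    refine (mi_step lam hK (measurableSet_tr (i, true) hK) hsub).trans (le_of_eq ?_)
    congr 1
    · rw [hph]
      show _ = gE lam K {u | u < v} - gE lam K {u | u ≤ v}
      congr 1
      · apply gE_congr lam dep1
        intro w hw
        exact ⟨fun h => h.2, fun h => ⟨Finset.mem_coe.mp hw, h⟩⟩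
      · apply gE_congr lam dep1
        intro w hw
        exact ⟨fun h => h.2, fun h => ⟨Finset.mem_coe.mp hw, h⟩⟩
    · rw [hph]
      show _ = gE lam K {u | u < (FreeGroup.of i)⁻¹ * v}
        - gE lam K {u | u ≤ (FreeGroup.of i)⁻¹ * v}
      have key : ∀ S : Set (FreeGroup (Fin d)), gE lam (tr (i, true) K) S =
          gE lam K ((fun g => FreeGroup.of i * g) ⁻¹' S) := by
        intro S
        exact gE_rl lam (Equiv.mulLeft (gen (i, true))) hK S
      have hlt : ∀ u : FreeGroup (Fin d), FreeGroup.of i * u < v ↔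
          u < (FreeGroup.of i)⁻¹ * v := by
        intro u
        have := hinv (FreeGroup.of i) u ((FreeGroup.of i)⁻¹ * v)
        rw [mul_inv_cancel_left] at this
        exact this
      have hle : ∀ u : FreeGroup (Fin d), FreeGroup.of i * u ≤ v ↔
          u ≤ (FreeGroup.of i)⁻¹ * v := by
        intro u
        rw [le_iff_lt_or_eq, le_iff_lt_or_eq, hlt u, eq_inv_mul_iff_mul_eq]
      congr 1
      · rw [key]
        apply gE_congr lam hW
        intro w hw
        show (FreeGroup.of i * w ∈ U i ∧ FreeGroup.of i * w < v) ↔ _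
        rw [hlt]
        exact ⟨fun h => h.2, fun h => ⟨Finset.mem_coe.mp (hWU' ⟨w, hw, rfl⟩), h⟩⟩
      · rw [key]
        apply gE_congr lam hW
        intro w hw
        show (FreeGroup.of i * w ∈ U i ∧ FreeGroup.of i * w ≤ v) ↔ _
        rw [hle]
        exact ⟨fun h => h.2, fun h => ⟨Finset.mem_coe.mp (hWU' ⟨w, hw, rfl⟩), h⟩⟩
  calc ∑ i : Fin d, miE lam K (tr (i, true) K) ∅
      ≤ ∑ i : Fin d, ∑ v ∈ U i, min (ph v) (ph ((FreeGroup.of i)⁻¹ * v)) :=
        Finset.sum_le_sum fun i _ => main i
    _ ≤ ∑ w ∈ W, ph w := forest ph W U ph0 phW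
    _ = gE lam K ∅ := htot

theorem mi_sum {K : Set (FreeGroup (Fin d) → Lab)} (hK : MeasurableSet K)
    (W : Finset (FreeGroup (Fin d))) (hW : Dep K (W : Set (FreeGroup (Fin d)))) :
    ∑ i : Fin d, miE lam K (tr (i, true) K) ∅ ≤ gE lam K ∅ :=
  @mi_sum_aux d Lab _ lam _ (fgo d) (fun a u v => flt_mul a u v) K hK W hW

end Pool.Agent.H649S
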