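import Pool.Agent.H649S.Appr

/-!
Small sets in the Bernoulli shift of a free group are sparse.
-/

set_option autoImplicit false
set_option linter.unusedSectionVars false

open MeasureTheory Set
open scoped ENNReal Topology

namespace Pool.Agent.H649S

/-- mutual information of two events of probability `q` whose intersection has probability `e` -/
noncomputable def mi2 (q e : ℝ) : ℝ :=
  2 * (Real.negMulLog q + Real.negMulLog (1 - q))
    - (Real.negMulLog e + 2 * Real.negMulLog (q - e) + Real.negMulLog (1 - 2 * q + e))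

theorem mi2_cont : Continuous (fun p : ℝ × ℝ => mi2 p.1 p.2) := by
  unfold mi2
  have h := Real.continuous_negMulLog
  fun_prop

theorem mi2_tendsto {a b : ℕ → ℝ} {A B : ℝ} (ha : Filter.Tendsto a Filter.atTop (𝓝 A))
    (hb : Filter.Tendsto b Filter.atTop (𝓝 B)) :
    Filter.Tendsto (fun n => mi2 (a n) (b n)) Filter.atTop (𝓝 (mi2 A B)) := by
  have h1 := mi2_cont.tendsto (A, B)
  have h2 : Filter.Tendsto (fun n => (a n, b n)) Filter.atTop (𝓝 (A, B)) := ha.prodMk_nhds hb
  exact h1.comp h2

theorem ent_tendsto {a : ℕ → ℝ} {A : ℝ} (ha : Filter.Tendsto a Filter.atTop (𝓝 A)) :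
    Filter.Tendsto (fun n => Real.negMulLog (a n) + Real.negMulLog (1 - a n)) Filter.atTop
      (𝓝 (Real.negMulLog A + Real.negMulLog (1 - A))) := by
  have hc : Continuous (fun q : ℝ => Real.negMulLog q + Real.negMulLog (1 - q)) := by
    have := Real.continuous_negMulLog
    fun_prop
  exact (hc.tendsto A).comp ha

theorem eta_scale (q t : ℝ) : Real.negMulLog (q * t) =
    t * Real.negMulLog q + q * Real.negMulLog t := Real.negMulLog_mul q t

theorem mi2_lower {q e : ℝ} (hq : 0 < q) (hq1 : q ≤ 1) (he : 0 ≤ e) (heq : e ≤ q)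
    (h2 : 0 ≤ 1 - 2 * q + e) : e * (- Real.log q) - 3 * q ≤ mi2 q e := by
  set t := e / q with ht
  have e1 : e = q * t := by rw [ht]; field_simp
  have t0 : 0 ≤ t := by rw [ht]; positivity
  have t1 : t ≤ 1 := by rw [ht]; exact (div_le_one hq).mpr heq
  have e2 : q - e = q * (1 - t) := by rw [e1]; ring
  have a1 : Real.negMulLog e ≤ t * Real.negMulLog q + q * (1 - t) := by
    rw [e1, eta_scale]
    have := mul_le_mul_of_nonneg_left (eta_le t t0) hq.le
    linarith
  have a2 : Real.negMulLog (q - e) ≤ (1 - t) * Real.negMulLog q + q * t := by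
    rw [e2, eta_scale]
    have := mul_le_mul_of_nonneg_left (eta_le (1 - t) (by linarith)) hq.le
    linarith
  have a3 : Real.negMulLog (1 - 2 * q + e) ≤ 2 * q - e := by
    have := eta_le _ h2
    linarith
  have a4 : 0 ≤ Real.negMulLog (1 - q) := eta_nonneg (by linarith) (by linarith)
  have a5 : Real.negMulLog q = q * (- Real.log q) := by unfold Real.negMulLog; ring
  unfold mi2
  rw [a5] at a1 a2 ⊢
  have b1 : t * (q * (- Real.log q)) = e * (- Real.log q) := by rw [e1]; ring
  have b2 : (1 - t) * (q * (- Real.log q)) = (q - e) * (- Real.log q) := by rw [e2]; ring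
  rw [b1] at a1
  rw [b2] at a2
  have b3 : q * t = e := e1.symm
  have b4 : q * (1 - t) = q - e := e2.symm
  rw [b3] at a2
  rw [b4] at a1
  nlinarith [a1, a2, a3, a4]

section Sp

variable {d : ℕ} {Lab : Type} [MeasurableSpace Lab] (lam : Measure Lab) [IsProbabilityMeasure lam]

theorem shl_mp (l : Fin d × Bool) : MeasurePreserving (shl (Lab := Lab) l)
    (bm (FreeGroup (Fin d)) lam) (bm (FreeGroup (Fin d)) lam) := rl_mp lam _

theorem tr_real (l : Fin d × Bool) {K : Set (FreeGroup (Fin d) → Lab)} (hK : MeasurableSet K) :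
    (bm (FreeGroup (Fin d)) lam).real (tr l K) = (bm (FreeGroup (Fin d)) lam).real K := by
  rw [measureReal_def, measureReal_def]
  congr 1
  exact (shl_mp lam l).measure_preimage hK.nullMeasurableSet

theorem gE_empty {K : Set (FreeGroup (Fin d) → Lab)} (hK : MeasurableSet K) :
    gE lam K ∅ = Real.negMulLog ((bm (FreeGroup (Fin d)) lam).real K)
      + Real.negMulLog (1 - (bm (FreeGroup (Fin d)) lam).real K) := by
  unfold gE
  rw [Ph_empty, Ph_empty, probReal_compl_eq_one_sub hK]

theorem miE_empty (l : Fin d × Bool) {K : Set (FreeGroup (Fin d) → Lab)} (hK : MeasurableSet K) :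
    miE lam K (tr l K) ∅ = mi2 ((bm (FreeGroup (Fin d)) lam).real K)
      ((bm (FreeGroup (Fin d)) lam).real (K ∩ tr l K)) := by
  have hT := measurableSet_tr l hK
  have h1 : (bm (FreeGroup (Fin d)) lam).real (K ∩ (tr l K)ᶜ) =
      (bm (FreeGroup (Fin d)) lam).real K - (bm (FreeGroup (Fin d)) lam).real (K ∩ tr l K) := by
    have := measureReal_inter_add_sdiff (μ := bm (FreeGroup (Fin d)) lam) (s := K) hT
    rw [Set.sdiff_eq] at this
    linarith
  have h2 : (bm (FreeGroup (Fin d)) lam).real (Kᶜ ∩ tr l K) =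
      (bm (FreeGroup (Fin d)) lam).real K - (bm (FreeGroup (Fin d)) lam).real (K ∩ tr l K) := by
    have := measureReal_inter_add_sdiff (μ := bm (FreeGroup (Fin d)) lam) (s := tr l K) hK
    rw [Set.sdiff_eq, tr_real lam l hK, Set.inter_comm, Set.inter_comm (tr l K) Kᶜ] at this
    linarith
  have h3 : (bm (FreeGroup (Fin d)) lam).real (Kᶜ ∩ (tr l K)ᶜ) =
      1 - 2 * (bm (FreeGroup (Fin d)) lam).real K
        + (bm (FreeGroup (Fin d)) lam).real (K ∩ tr l K) := by
    have := measureReal_inter_add_sdiff (μ := bm (FreeGroup (Fin d)) lam) (s := Kᶜ) hT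
    rw [Set.sdiff_eq, h2, probReal_compl_eq_one_sub hK] at this
    linarith
  unfold miE chiE
  rw [gE_empty lam hK, gE_empty lam hT, Ph_empty, Ph_empty, Ph_empty, Ph_empty, h1, h2, h3,
    tr_real lam l hK]
  unfold mi2
  ring

theorem real_sub_le {Om : Type} [MeasurableSpace Om] (P : Measure Om) [IsProbabilityMeasure P]
    (A B : Set Om) : |P.real A - P.real B| ≤ P.real (symmDiff A B) := by
  have h1 : P.real A ≤ P.real B + P.real (symmDiff A B) := by
    refine (measureReal_mono (s₂ := B ∪ symmDiff A B) ?_).trans (measureReal_union_le _ _)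
    intro x hx
    by_cases h : x ∈ B
    · exact Or.inl h
    · exact Or.inr (Or.inl ⟨hx, h⟩)
  have h2 : P.real B ≤ P.real A + P.real (symmDiff A B) := by
    refine (measureReal_mono (s₂ := A ∪ symmDiff A B) ?_).trans (measureReal_union_le _ _)
    intro x hx
    by_cases h : x ∈ A
    · exact Or.inl h
    · exact Or.inr (Or.inr ⟨hx, h⟩)
  rw [abs_le]
  constructor <;> linarith

theorem mi2_sum {K : Set (FreeGroup (Fin d) → Lab)} (hK : MeasurableSet K) :
    ∑ i : Fin d, mi2 ((bm (FreeGroup (Fin d)) lam).real K)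
      ((bm (FreeGroup (Fin d)) lam).real (K ∩ tr (i, true) K)) ≤
    Real.negMulLog ((bm (FreeGroup (Fin d)) lam).real K)
      + Real.negMulLog (1 - (bm (FreeGroup (Fin d)) lam).real K) := by
  set mu := bm (FreeGroup (Fin d)) lam with hmu
  have hex : ∀ n : ℕ, ∃ (K' : Set (FreeGroup (Fin d) → Lab)) (W : Finset (FreeGroup (Fin d))),
      MeasurableSet K' ∧ Dep K' (W : Set (FreeGroup (Fin d))) ∧
      mu.real (symmDiff K K') ≤ 1 / ((n : ℝ) + 1) :=
    fun n => Ap_of_measurable lam hK _ (by positivity)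
  choose K' W h1 h2 h3 using hex
  have hz : Filter.Tendsto (fun n : ℕ => 1 / ((n : ℝ) + 1)) Filter.atTop (𝓝 0) :=
    tendsto_one_div_add_atTop_nhds_zero_nat
  have hq : Filter.Tendsto (fun n => mu.real (K' n)) Filter.atTop (𝓝 (mu.real K)) := by
    rw [tendsto_iff_dist_tendsto_zero]
    refine squeeze_zero (fun _ => dist_nonneg) (fun n => ?_) hz
    rw [Real.dist_eq, abs_sub_comm]
    exact (real_sub_le mu _ _).trans (h3 n)
  have he : ∀ i : Fin d, Filter.Tendsto (fun n => mu.real (K' n ∩ tr (i, true) (K' n)))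
      Filter.atTop (𝓝 (mu.real (K ∩ tr (i, true) K))) := by
    intro i
    rw [tendsto_iff_dist_tendsto_zero]
    have hz2 : Filter.Tendsto (fun n : ℕ => 2 * (1 / ((n : ℝ) + 1))) Filter.atTop (𝓝 0) := by
      have := hz.const_mul 2
      rwa [mul_zero] at this
    refine squeeze_zero (fun _ => dist_nonneg) (fun n => ?_) hz2
    rw [Real.dist_eq, abs_sub_comm]
    refine (real_sub_le mu _ _).trans ?_
    have hsub : symmDiff (K ∩ tr (i, true) K) (K' n ∩ tr (i, true) (K' n)) ⊆
        symmDiff K (K' n) ∪ tr (i, true) (symmDiff K (K' n)) := by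
      intro x hx
      have hx' : (shl (i, true) x ∈ symmDiff K (K' n)) ↔
          x ∈ tr (i, true) (symmDiff K (K' n)) := Iff.rfl
      rw [Set.mem_union, ← hx']
      simp only [Set.mem_symmDiff, Set.mem_inter_iff] at hx ⊢
      have k1 : x ∈ tr (i, true) K ↔ shl (i, true) x ∈ K := Iff.rfl
      have k2 : x ∈ tr (i, true) (K' n) ↔ shl (i, true) x ∈ K' n := Iff.rfl
      rw [k1, k2] at hx
      tauto
    calc mu.real (symmDiff (K ∩ tr (i, true) K) (K' n ∩ tr (i, true) (K' n)))
        ≤ mu.real (symmDiff K (K' n) ∪ tr (i, true) (symmDiff K (K' n))) := measureReal_mono hsub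
      _ ≤ mu.real (symmDiff K (K' n)) + mu.real (tr (i, true) (symmDiff K (K' n))) :=
          measureReal_union_le _ _
      _ = 2 * mu.real (symmDiff K (K' n)) := by
          rw [hmu, tr_real lam _ (hK.symmDiff (h1 n))]; ring
      _ ≤ 2 * (1 / ((n : ℝ) + 1)) := by have := h3 n; linarith
  have hL : Filter.Tendsto (fun n => ∑ i : Fin d, mi2 (mu.real (K' n))
      (mu.real (K' n ∩ tr (i, true) (K' n)))) Filter.atTop
      (𝓝 (∑ i : Fin d, mi2 (mu.real K) (mu.real (K ∩ tr (i, true) K)))) := by
    refine tendsto_finsetSum _ fun i _ => ?_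
    exact mi2_tendsto hq (he i)
  have hR : Filter.Tendsto (fun n => Real.negMulLog (mu.real (K' n))
      + Real.negMulLog (1 - mu.real (K' n))) Filter.atTop
      (𝓝 (Real.negMulLog (mu.real K) + Real.negMulLog (1 - mu.real K))) := ent_tendsto hq
  refine le_of_tendsto_of_tendsto' hL hR fun n => ?_
  have := mi_sum lam (h1 n) (W n) (h2 n)
  rw [gE_empty lam (h1 n)] at this
  simp only [miE_empty lam _ (h1 n)] at this
  exact this

/-- **Sparsity.** Small sets of the Bernoulli shift of the free group have few internal edges. -/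
theorem sparse {K : Set (FreeGroup (Fin d) → Lab)} (hK : MeasurableSet K) :
    (- Real.log ((bm (FreeGroup (Fin d)) lam).real K)) *
      ∑ i : Fin d, (bm (FreeGroup (Fin d)) lam).real (K ∩ tr (i, true) K) ≤
    (bm (FreeGroup (Fin d)) lam).real K *
      (- Real.log ((bm (FreeGroup (Fin d)) lam).real K) + (3 * d + 1)) := by
  set mu := bm (FreeGroup (Fin d)) lam with hmu
  set q := mu.real K with hq
  have hq0 : 0 ≤ q := measureReal_nonneg
  have hq1 : q ≤ 1 := measureReal_le_one
  rcases hq0.eq_or_lt with h | h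
  · rw [← h]; simp
  · have h1 := mi2_sum lam hK
    rw [← hmu, ← hq] at h1
    have h2 : ∀ i : Fin d, mu.real (K ∩ tr (i, true) K) * (- Real.log q) - 3 * q ≤
        mi2 q (mu.real (K ∩ tr (i, true) K)) := by
      intro i
      refine mi2_lower h hq1 measureReal_nonneg (measureReal_mono Set.inter_subset_left) ?_
      have hT := measurableSet_tr (i, true) hK
      have h3 := measureReal_union_add_inter (μ := mu) (s := K) hT
      rw [hmu, tr_real lam _ hK, ← hmu, ← hq] at h3
      have h4 : mu.real (K ∪ tr (i, true) K) ≤ 1 := measureReal_le_one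
      linarith
    have h3 : Real.negMulLog q + Real.negMulLog (1 - q) ≤ q * (- Real.log q) + q := by
      have := eta_le (1 - q) (by linarith)
      unfold Real.negMulLog at this ⊢
      linarith
    have h4 := (Finset.sum_le_sum fun i (_ : i ∈ (Finset.univ : Finset (Fin d))) => h2 i).trans
      (h1.trans h3)
    rw [Finset.sum_sub_distrib, ← Finset.sum_mul] at h4
    simp only [Finset.sum_const, Finset.card_univ, Fintype.card_fin, nsmul_eq_mul] at h4
    nlinarith [h4]

theorem tr_bar_tr (l : Fin d × Bool) (K : Set (FreeGroup (Fin d) → Lab)) :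
    tr (bar l) (tr l K) = K := by
  ext x
  show shl l (shl (bar l) x) ∈ K ↔ x ∈ K
  have : shl l (shl (bar l) x) = x := by
    funext h
    rw [shl_apply, shl_apply, gen_bar_mul]
  rw [this]

theorem edge_symm (l : Fin d × Bool) {K : Set (FreeGroup (Fin d) → Lab)} (hK : MeasurableSet K) :
    (bm (FreeGroup (Fin d)) lam).real (K ∩ tr (bar l) K) =
      (bm (FreeGroup (Fin d)) lam).real (K ∩ tr l K) := by
  have h1 : K ∩ tr (bar l) K = tr (bar l) (tr l K ∩ K) := by
    have : tr (bar l) (tr l K ∩ K) = tr (bar l) (tr l K) ∩ tr (bar l) K := rfl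
    rw [this, tr_bar_tr]
  rw [h1, tr_real lam _ ((measurableSet_tr l hK).inter hK), Set.inter_comm]

/-- sum over all letters -/
theorem sparse_letters {K : Set (FreeGroup (Fin d) → Lab)} (hK : MeasurableSet K) :
    (- Real.log ((bm (FreeGroup (Fin d)) lam).real K)) *
      ∑ l : Fin d × Bool, (bm (FreeGroup (Fin d)) lam).real (K ∩ tr l K) ≤
    2 * ((bm (FreeGroup (Fin d)) lam).real K *
      (- Real.log ((bm (FreeGroup (Fin d)) lam).real K) + (3 * d + 1))) := by
  have h1 : ∑ l : Fin d × Bool, (bm (FreeGroup (Fin d)) lam).real (K ∩ tr l K) =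
      2 * ∑ i : Fin d, (bm (FreeGroup (Fin d)) lam).real (K ∩ tr (i, true) K) := by
    rw [Fintype.sum_prod_type, Finset.mul_sum]
    refine Finset.sum_congr rfl fun i _ => ?_
    rw [Fintype.sum_bool]
    have := edge_symm lam (i, true) hK
    have hb : bar ((i, true) : Fin d × Bool) = (i, false) := rfl
    rw [hb] at this
    rw [this]
    ring
  rw [h1]
  have := sparse lam hK
  nlinarith [this]

end Sp

end Pool.Agent.H649S
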