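import Pool.Agent.H649S.Alt
import Pool.Agent.H649S.Sparse

/-!
Almost every resampled pair is generic; measurability; the basic inclusions.
-/

set_option autoImplicit false
set_option linter.unusedSectionVars false

open MeasureTheory Set
open scoped ENNReal

namespace Pool.Agent.H649S

variable {d : ℕ} {Lab : Type} [MeasurableSpace Lab] (lam : Measure Lab) [IsProbabilityMeasure lam]
variable (tau : (FreeGroup (Fin d) → Lab) → (Fin d × Bool → Fin (2 * d)))

/-- a measurable proper edge colouring of the Schreier graphing -/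
structure Col : Prop where
  meas : Measurable tau
  inj : ∀ᵐ x ∂(bm (FreeGroup (Fin d)) lam), Function.Injective (tau x)
  cons : ∀ᵐ x ∂(bm (FreeGroup (Fin d)) lam), ∀ l, tau (shl l x) (bar l) = tau x l

variable {tau}

theorem measurable_sh (v : FreeGroup (Fin d)) :
    Measurable (sh v : (FreeGroup (Fin d) → Lab) → (FreeGroup (Fin d) → Lab)) :=
  measurable_rl _

theorem measurable_shl (l : Fin d × Bool) :
    Measurable (shl l : (FreeGroup (Fin d) → Lab) → (FreeGroup (Fin d) → Lab)) :=
  measurable_rl _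

theorem ae_sh (v : FreeGroup (Fin d)) {P : (FreeGroup (Fin d) → Lab) → Prop}
    (h : ∀ᵐ x ∂(bm (FreeGroup (Fin d)) lam), P x) :
    ∀ᵐ x ∂(bm (FreeGroup (Fin d)) lam), P (sh v x) := ae_rl lam _ h

theorem ae_shl (l : Fin d × Bool) {P : (FreeGroup (Fin d) → Lab) → Prop}
    (h : ∀ᵐ x ∂(bm (FreeGroup (Fin d)) lam), P x) :
    ∀ᵐ x ∂(bm (FreeGroup (Fin d)) lam), P (shl l x) := ae_rl lam _ h

instance : Countable (FreeGroup (Fin d)) := by infer_instance

theorem Col.all (h : Col lam tau) : ∀ᵐ x ∂(bm (FreeGroup (Fin d)) lam),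
    (∀ v, Function.Injective (tau (sh v x))) ∧
      (∀ v l, tau (sh (v * gen l) x) (bar l) = tau (sh v x) l) := by
  have h1 : ∀ᵐ x ∂(bm (FreeGroup (Fin d)) lam), ∀ v, Function.Injective (tau (sh v x)) := by
    rw [ae_all_iff]
    exact fun v => ae_sh lam v h.inj
  have h2 : ∀ᵐ x ∂(bm (FreeGroup (Fin d)) lam),
      ∀ v l, tau (sh (v * gen l) x) (bar l) = tau (sh v x) l := by
    rw [ae_all_iff]
    intro v
    filter_upwards [ae_sh lam v h.cons] with x hx l
    rw [← shl_sh]
    exact hx l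
  filter_upwards [h1, h2] with x h1 h2
  exact ⟨h1, h2⟩

/-- the resampled pair is generic -/
theorem Col.pair (h : Col lam tau) : ∀ᵐ x ∂(bm (FreeGroup (Fin d)) lam),
    ∀ w : List (Fin d × Bool), ∀ᵐ z ∂(bm (FreeGroup (Fin d)) lam),
      PairOK lam tau x (spl (Cone w) x z) w := by
  rw [ae_all_iff]
  intro w
  have h3 : ∀ᵐ x ∂(bm (FreeGroup (Fin d)) lam), ∀ v : FreeGroup (Fin d),
      ∀ᵐ z ∂(bm (FreeGroup (Fin d)) lam), Det lam {g | v * g ∈ Cone w} tau (sh v x) →
        tau (sh v (spl (Cone w) x z)) = tau (sh v x) := by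
    rw [ae_all_iff]
    intro v
    have h4 := ae_sh lam v (det_value lam {g | v * g ∈ Cone w} h.meas)
    filter_upwards [h4] with x hx
    by_cases hD : Det lam {g | v * g ∈ Cone w} tau (sh v x)
    · have h5 := ae_sh lam v (hx hD)
      filter_upwards [h5] with z hz _
      have h6 : sh v (spl (Cone w) x z) = spl {g | v * g ∈ Cone w} (sh v x) (sh v z) :=
        rl_spl _ _ _ _
      rw [h6]
      exact hz
    · exact Filter.Eventually.of_forall fun z hz => absurd hz hD
  have h1 := h.all
  have h2 := ae_spl lam (Cone w) h.all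
  filter_upwards [h1, h2, h3] with x h1 h2 h3
  have h3' := (ae_all_iff).mpr h3
  filter_upwards [h2, h3'] with z h2 h3
  exact ⟨h1.1, h2.1, h1.2, h2.2, fun v hne hD => hne (h3 v hD).symm⟩

theorem Col.wit (h : Col lam tau) : ∀ᵐ x ∂(bm (FreeGroup (Fin d)) lam),
    ∀ w : List (Fin d × Bool), ¬ Det lam (Cone w) tau x →
      ∃ x', PairOK lam tau x x' w ∧ tau x ≠ tau x' := by
  filter_upwards [h.pair] with x hx w hw
  have h1 : ∃ᶠ z in ae (bm (FreeGroup (Fin d)) lam), ¬ tau (spl (Cone w) x z) = tau x := by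
    intro h2
    apply hw
    refine ⟨tau x, ?_⟩
    filter_upwards [h2] with z hz
    exact not_not.mp hz
  obtain ⟨z, h2, h3⟩ := (h1.and_eventually (hx w)).exists
  exact ⟨_, h3, fun e => h2 e.symm⟩

theorem PairOK.letter {x x' : FreeGroup (Fin d) → Lab} {w : List (Fin d × Bool)}
    (h : PairOK lam tau x x' w) (hd : tau x ≠ tau x') :
    ∃ l, w.head? ≠ some l ∧ tau x l ≠ tau x' l := by
  obtain ⟨a, ha⟩ := Function.ne_iff.mp hd
  by_cases h1 : w.head? = some a
  · obtain ⟨b, hb, hb'⟩ := h.two lam ha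
    refine ⟨b, ?_, hb'⟩
    rw [h1]
    exact fun e => hb (Option.some.inj e).symm
  · exact ⟨a, h1, ha⟩

theorem Col.core (h : Col lam tau) (n m : ℕ) : ∀ᵐ x ∂(bm (FreeGroup (Fin d)) lam),
    x ∈ Kn lam tau n → ∃ al be, (∃ t, t ∈ Finset.Icc 1 m ∧ x ∈ Alt tau t al be (Sn lam tau n)) ∨
      x ∈ Alt tau m al be (En lam tau (n + m)) := by
  filter_upwards [h.wit] with x hx hK
  obtain ⟨⟨w, hw, hn, hD⟩, a, b, hab, ha, hb⟩ := hK
  obtain ⟨x', hp, hd⟩ := hx w hD
  obtain ⟨l, hl, hld⟩ := hp.letter lam hd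
  have h2 : ∃ l₂, l₂ ≠ l ∧ Inf (En lam tau n) x l₂ := by
    by_cases h3 : a = l
    · exact ⟨b, fun e => hab (h3.trans e.symm), hb⟩
    · exact ⟨a, h3, ha⟩
  refine ⟨tau x l, tau x' l, ?_⟩
  rcases core_path lam m hp hw hn hn hl hld h2 with ⟨t, h3, h4, h5⟩ | h3
  · exact Or.inl ⟨t, Finset.mem_Icc.mpr ⟨h3, h4⟩, h5⟩
  · exact Or.inr h3

theorem Col.pend (h : Col lam tau) (n m : ℕ) : ∀ᵐ x ∂(bm (FreeGroup (Fin d)) lam),
    x ∈ En lam tau n → ∃ al be, (∃ t, t ∈ Finset.Icc 1 m ∧ x ∈ Alt tau t al be (Kn lam tau n)) ∨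
      x ∈ Alt tau m al be (En lam tau (n + m)) := by
  filter_upwards [h.wit] with x hx hE
  obtain ⟨w, hw, hn, hD⟩ := hE
  obtain ⟨x', hp, hd⟩ := hx w hD
  obtain ⟨l, hl, hld⟩ := hp.letter lam hd
  refine ⟨tau x l, tau x' l, ?_⟩
  rcases pend_path lam m hp hw hn hn hl hld with ⟨t, h3, h4, h5⟩ | h3
  · exact Or.inl ⟨t, Finset.mem_Icc.mpr ⟨h3, h4⟩, h5⟩
  · exact Or.inr h3

theorem Col.one (h : Col lam tau) (n : ℕ) : ∀ᵐ x ∂(bm (FreeGroup (Fin d)) lam),
    x ∈ En lam tau n → ∃ l, shl l x ∈ En lam tau (n + 1) := by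
  filter_upwards [h.wit] with x hx hE
  obtain ⟨w, hw, hn, hD⟩ := hE
  obtain ⟨x', hp, hd⟩ := hx w hD
  obtain ⟨l, hl, hld⟩ := hp.letter lam hd
  have hs := hp.step lam hw hl
  refine ⟨l, hs.mem lam (by simp) (by simp; omega) ?_⟩
  intro e
  apply hld
  rw [← hp.cons1 lam l, ← hp.cons2 lam l, e]

/-! ### measurability -/

instance : Countable (List (Fin d × Bool)) := by infer_instance

theorem Col.mEn (h : Col lam tau) (n : ℕ) : MeasurableSet (En lam tau n) := by
  have h1 : En lam tau n = ⋃ w : List (Fin d × Bool), {x | (w ≠ [] ∧ n ≤ w.length) ∧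
      ¬ Det lam (Cone w) tau x} := by
    ext x
    simp only [Set.mem_iUnion]
    constructor
    · rintro ⟨w, h1, h2, h3⟩
      exact ⟨w, ⟨h1, h2⟩, h3⟩
    · rintro ⟨w, ⟨h1, h2⟩, h3⟩
      exact ⟨w, h1, h2, h3⟩
  rw [h1]
  refine MeasurableSet.iUnion fun w => ?_
  exact (MeasurableSet.const _).inter (measurableSet_det lam (Cone w) h.meas).compl

theorem measurableSet_Ray {E : Set (FreeGroup (Fin d) → Lab)} (hE : MeasurableSet E) (k : ℕ) :
    ∀ l, MeasurableSet {x | Ray E k x l} := by
  induction k with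
  | zero =>
    intro l
    exact (measurable_shl l) hE
  | succ k ih =>
    intro l
    have h1 : {x | Ray E (k + 1) x l} = shl l ⁻¹' E ∩ ⋃ l' : Fin d × Bool,
        {x | l' ≠ bar l} ∩ shl l ⁻¹' {x | Ray E k x l'} := by
      ext x
      simp only [Set.mem_inter_iff, Set.mem_iUnion]
      exact Iff.rfl
    rw [h1]
    refine ((measurable_shl l) hE).inter (MeasurableSet.iUnion fun l' => ?_)
    exact (MeasurableSet.const _).inter ((measurable_shl l) (ih l'))

theorem measurableSet_Inf {E : Set (FreeGroup (Fin d) → Lab)} (hE : MeasurableSet E)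
    (l : Fin d × Bool) : MeasurableSet {x | Inf E x l} := by
  have h1 : {x | Inf E x l} = ⋂ k : ℕ, {x | Ray E k x l} := by
    ext x
    simp only [Set.mem_iInter]
    exact Iff.rfl
  rw [h1]
  exact MeasurableSet.iInter fun k => measurableSet_Ray hE k l

theorem Col.mKn (h : Col lam tau) (n : ℕ) : MeasurableSet (Kn lam tau n) := by
  have hE := h.mEn lam n
  have h1 : Kn lam tau n = En lam tau n ∩ ⋃ a : Fin d × Bool, ⋃ b : Fin d × Bool,
      {x | a ≠ b} ∩ ({x | Inf (En lam tau n) x a} ∩ {x | Inf (En lam tau n) x b}) := by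
    ext x
    simp only [Set.mem_inter_iff, Set.mem_iUnion]
    exact Iff.rfl
  rw [h1]
  refine hE.inter (MeasurableSet.iUnion fun a => MeasurableSet.iUnion fun b => ?_)
  exact (MeasurableSet.const _).inter ((measurableSet_Inf hE a).inter (measurableSet_Inf hE b))

theorem Col.mSn (h : Col lam tau) (n : ℕ) : MeasurableSet (Sn lam tau n) := by
  have hE := h.mEn lam n
  have h1 : Sn lam tau n = En lam tau n ∩ ⋃ a : Fin d × Bool, ⋃ b : Fin d × Bool,
      ⋃ c : Fin d × Bool,
      {x | a ≠ b} ∩ ({x | a ≠ c} ∩ ({x | b ≠ c} ∩ ({x | Inf (En lam tau n) x a} ∩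
        ({x | Inf (En lam tau n) x b} ∩ {x | Inf (En lam tau n) x c})))) := by
    ext x
    simp only [Set.mem_inter_iff, Set.mem_iUnion]
    exact Iff.rfl
  rw [h1]
  refine hE.inter (MeasurableSet.iUnion fun a => MeasurableSet.iUnion fun b =>
    MeasurableSet.iUnion fun c => ?_)
  exact (MeasurableSet.const _).inter ((MeasurableSet.const _).inter ((MeasurableSet.const _).inter
    ((measurableSet_Inf hE a).inter ((measurableSet_Inf hE b).inter (measurableSet_Inf hE c)))))

theorem Col.mval (h : Col lam tau) (l : Fin d × Bool) (al : Fin (2 * d)) :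
    MeasurableSet {x | tau x l = al} :=
  ((measurable_pi_apply l).comp h.meas) (measurableSet_singleton al)

theorem Col.mAlt (h : Col lam tau) {B : Set (FreeGroup (Fin d) → Lab)} (hB : MeasurableSet B)
    (k : ℕ) : ∀ al be, MeasurableSet (Alt tau k al be B) := by
  induction k with
  | zero => intro al be; exact hB
  | succ k ih =>
    intro al be
    have h1 : Alt tau (k + 1) al be B = ⋃ l : Fin d × Bool,
        {x | tau x l = al} ∩ shl l ⁻¹' (Alt tau k be al B) := by
      ext x
      simp only [Set.mem_iUnion]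
      exact Iff.rfl
    rw [h1]
    refine MeasurableSet.iUnion fun l => ?_
    exact (h.mval lam l al).inter ((measurable_shl l) (ih be al))

/-! ### measures of alternating preimages -/

theorem Col.alt_step (h : Col lam tau) {A : Set (FreeGroup (Fin d) → Lab)}
    (hA : MeasurableSet A) (al : Fin (2 * d)) (l : Fin d × Bool) :
    (bm (FreeGroup (Fin d)) lam) ({x | tau x l = al} ∩ shl l ⁻¹' A) =
      (bm (FreeGroup (Fin d)) lam) (A ∩ {y | tau y (bar l) = al}) := by
  have hm : MeasurableSet ({x | tau x l = al} ∩ shl l ⁻¹' A) :=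
    (h.mval lam l al).inter ((measurable_shl l) hA)
  rw [← (shl_mp lam (bar l)).measure_preimage hm.nullMeasurableSet]
  apply measure_congr
  have h1 := h.cons
  filter_upwards [h1] with y hy
  have e1 : shl l (shl (bar l) y) = y := by
    have := shl_bar (bar l) y
    rwa [bar_bar] at this
  have e2 : tau (shl (bar l) y) l = tau y (bar l) := by
    have := hy (bar l)
    rwa [bar_bar] at this
  apply propext
  show (tau (shl (bar l) y) l = al ∧ shl l (shl (bar l) y) ∈ A) ↔ (y ∈ A ∧ tau y (bar l) = al)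
  rw [e1, e2]
  exact and_comm

theorem Col.alt_le (h : Col lam tau) {B : Set (FreeGroup (Fin d) → Lab)} (hB : MeasurableSet B)
    (k : ℕ) : ∀ al be, (bm (FreeGroup (Fin d)) lam) (Alt tau k al be B) ≤
      (bm (FreeGroup (Fin d)) lam) B := by
  induction k with
  | zero => intro al be; exact le_rfl
  | succ k ih =>
    intro al be
    have h1 : Alt tau (k + 1) al be B = ⋃ l : Fin d × Bool,
        {x | tau x l = al} ∩ shl l ⁻¹' (Alt tau k be al B) := by
      ext x
      simp only [Set.mem_iUnion]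
      exact Iff.rfl
    have hA := h.mAlt lam hB k be al
    calc (bm (FreeGroup (Fin d)) lam) (Alt tau (k + 1) al be B)
        ≤ ∑ l : Fin d × Bool, (bm (FreeGroup (Fin d)) lam)
            ({x | tau x l = al} ∩ shl l ⁻¹' (Alt tau k be al B)) := by
          rw [h1]
          exact measure_iUnion_fintype_le _ _
      _ = ∑ l : Fin d × Bool, (bm (FreeGroup (Fin d)) lam)
            (Alt tau k be al B ∩ {y | tau y (bar l) = al}) :=
          Finset.sum_congr rfl fun l _ => h.alt_step lam hA al l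
      _ = (bm (FreeGroup (Fin d)) lam) (⋃ l ∈ (Finset.univ : Finset (Fin d × Bool)),
            (Alt tau k be al B ∩ {y | tau y (bar l) = al})) := by
          rw [measure_biUnion_finset₀]
          · intro a _ b _ hab
            have h2 : (bm (FreeGroup (Fin d)) lam)
                ((Alt tau k be al B ∩ {y | tau y (bar a) = al}) ∩
                (Alt tau k be al B ∩ {y | tau y (bar b) = al})) = 0 := by
              rw [measure_eq_zero_iff_ae_notMem]
              filter_upwards [h.inj] with y hy hh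
              have := hy (hh.1.2.trans hh.2.2.symm)
              exact hab (bar_inj this)
            exact h2
          · intro l _
            exact (hA.inter (h.mval lam (bar l) al)).nullMeasurableSet
      _ ≤ (bm (FreeGroup (Fin d)) lam) (Alt tau k be al B) := by
          apply measure_mono
          intro x hx
          simp only [Set.mem_iUnion] at hx
          obtain ⟨l, _, hx⟩ := hx
          exact hx.1
      _ ≤ (bm (FreeGroup (Fin d)) lam) B := ih be al

end Pool.Agent.H649S
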