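import Pool.Agent.H649S.Ent2
import Pool.Agent.R788.MagOrd

/-!
A left invariant linear order on the free group, telescoping along it.
-/

set_option autoImplicit false
set_option linter.unusedSectionVars false

open MeasureTheory Set

namespace Pool.Agent.H649S

section Tele

variable {V : Type} [LinearOrder V]

theorem tele (f : Set V → ℝ) (U : Finset V) :
    f ∅ - f (U : Set V) =
      ∑ v ∈ U, (f {u | u ∈ U ∧ u < v} - f {u | u ∈ U ∧ u ≤ v}) := by
  classical
  induction U using Finset.induction_on_max with
  | empty => simp
  | insert a s ha ih =>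
    have hna : a ∉ s := fun h => lt_irrefl a (ha a h)
    rw [Finset.sum_insert hna]
    have e1 : {u | u ∈ insert a s ∧ u < a} = (s : Set V) := by
      ext u
      simp only [Finset.mem_insert, Finset.mem_coe]
      constructor
      · rintro ⟨h | h, h'⟩
        · exact absurd h' (by rw [h]; exact lt_irrefl a)
        · exact h
      · intro h
        exact ⟨Or.inr h, ha u h⟩
    have e2 : {u | u ∈ insert a s ∧ u ≤ a} = ((insert a s : Finset V) : Set V) := by
      ext u
      simp only [Finset.mem_insert, Finset.mem_coe]
      constructor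
      · rintro ⟨h, -⟩
        exact h
      · rintro (h | h)
        · exact ⟨Or.inl h, h.le⟩
        · exact ⟨Or.inr h, (ha u h).le⟩
    rw [e1, e2]
    have e3 : ∀ v ∈ s, (f {u | u ∈ insert a s ∧ u < v} - f {u | u ∈ insert a s ∧ u ≤ v}) =
        (f {u | u ∈ s ∧ u < v} - f {u | u ∈ s ∧ u ≤ v}) := by
      intro v hv
      have hva := ha v hv
      congr 2
      · ext u
        simp only [Finset.mem_insert]
        constructor
        · rintro ⟨h | h, h'⟩
          · exact absurd h' (by rw [h]; exact not_lt.mpr hva.le)
          · exact ⟨h, h'⟩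
        · rintro ⟨h, h'⟩
          exact ⟨Or.inr h, h'⟩
      · ext u
        simp only [Finset.mem_insert]
        constructor
        · rintro ⟨h | h, h'⟩
          · exact absurd h' (by rw [h]; exact not_le.mpr hva)
          · exact ⟨h, h'⟩
        · rintro ⟨h, h'⟩
          exact ⟨Or.inr h, h'⟩
    rw [Finset.sum_congr rfl e3, ← ih]
    ring

end Tele

section Order

open Pool.Agent.R788.Mag

variable {d : ℕ}

/-- the strict order `g < h` if `g⁻¹ h` is in the Magnus cone -/
def flt (g h : FreeGroup (Fin d)) : Prop := g⁻¹ * h ∈ PCone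

theorem flt_mul (a g h : FreeGroup (Fin d)) : flt (a * g) (a * h) ↔ flt g h := by
  unfold flt
  rw [show (a * g)⁻¹ * (a * h) = g⁻¹ * h by group]

theorem flt_irrefl (g : FreeGroup (Fin d)) : ¬ flt g g := by
  unfold flt
  rw [inv_mul_cancel]
  exact one_notMem_PCone

theorem flt_trans {g h k : FreeGroup (Fin d)} (h1 : flt g h) (h2 : flt h k) : flt g k := by
  unfold flt at *
  have := PCone_mul h1 h2
  rwa [show g⁻¹ * h * (h⁻¹ * k) = g⁻¹ * k by group] at this

theorem flt_tri (g h : FreeGroup (Fin d)) : flt g h ∨ g = h ∨ flt h g := by
  by_cases e : g = h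
  · exact Or.inr (Or.inl e)
  · have : g⁻¹ * h ≠ 1 := fun h1 => e (by
      have := mul_eq_one_iff_eq_inv.mp h1
      simpa using congrArg (·⁻¹) this)
    rcases PCone_total this with h1 | h1
    · exact Or.inl h1
    · right; right
      unfold flt
      rwa [show (g⁻¹ * h)⁻¹ = h⁻¹ * g by group] at h1

/-- the left invariant linear order -/
@[reducible] noncomputable def fgo (d : ℕ) : LinearOrder (FreeGroup (Fin d)) :=
  { le := fun g h => flt g h ∨ g = h
    lt := flt
    le_refl := fun g => Or.inr rfl
    le_trans := fun g h k h1 h2 => by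
      rcases h1 with h1 | h1
      · rcases h2 with h2 | h2
        · exact Or.inl (flt_trans h1 h2)
        · rw [← h2]; exact Or.inl h1
      · rw [h1]; exact h2
    le_antisymm := fun g h h1 h2 => by
      rcases h1 with h1 | h1
      · rcases h2 with h2 | h2
        · exact absurd (flt_trans h1 h2) (flt_irrefl g)
        · exact h2.symm
      · exact h1
    lt_iff_le_not_ge := fun g h => by
      constructor
      · intro h1
        refine ⟨Or.inl h1, ?_⟩
        rintro (h2 | h2)
        · exact flt_irrefl g (flt_trans h1 h2)
        · rw [h2] at h1; exact flt_irrefl g h1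
      · rintro ⟨h1 | h1, h2⟩
        · exact h1
        · exact absurd (Or.inr h1.symm) h2
    le_total := fun g h => by
      rcases flt_tri g h with h1 | h1 | h1
      · exact Or.inl (Or.inl h1)
      · exact Or.inl (Or.inr h1)
      · exact Or.inr (Or.inl h1)
    toDecidableLE := Classical.decRel _ }

end Order

end Pool.Agent.H649S
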