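import Pool.Agent.H649S.Det
import Pool.Agent.H649S.MI

/-!
Differences of two colourings and alternating paths.
-/

set_option autoImplicit false
set_option linter.unusedSectionVars false

open MeasureTheory Set
open scoped ENNReal

namespace Pool.Agent.H649S

variable {d : ℕ} {Lab : Type} [MeasurableSpace Lab] (lam : Measure Lab) [IsProbabilityMeasure lam]

/-- the configuration seen from `v` -/
def sh (v : FreeGroup (Fin d)) (x : FreeGroup (Fin d) → Lab) : FreeGroup (Fin d) → Lab :=
  rl (Equiv.mulLeft v) x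

theorem sh_one (x : FreeGroup (Fin d) → Lab) : sh 1 x = x := by
  funext h; show x (1 * h) = x h; rw [one_mul]

theorem sh_shl (v : FreeGroup (Fin d)) (l : Fin d × Bool) (x : FreeGroup (Fin d) → Lab) :
    sh v (shl l x) = sh (gen l * v) x := by
  funext h
  show x (gen l * (v * h)) = x (gen l * v * h)
  rw [mul_assoc]

theorem shl_sh (v : FreeGroup (Fin d)) (l : Fin d × Bool) (x : FreeGroup (Fin d) → Lab) :
    shl l (sh v x) = sh (v * gen l) x := by
  funext h
  show x (v * (gen l * h)) = x (v * gen l * h)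
  rw [mul_assoc]

theorem shl_bar (l : Fin d × Bool) (x : FreeGroup (Fin d) → Lab) : shl (bar l) (shl l x) = x := by
  funext h
  rw [shl_apply, shl_apply, gen_mul_bar]

/-- all group elements whose reduced word starts with `w` -/
def Cone (w : List (Fin d × Bool)) : Set (FreeGroup (Fin d)) := {h | w <+: h.toWord}

theorem cone_step {l : Fin d × Bool} {w : List (Fin d × Bool)} (hw : w ≠ [])
    (hl : w.head? ≠ some l) : {h | gen l * h ∈ Cone w} = Cone (bar l :: w) := by
  ext h
  show w <+: (gen l * h).toWord ↔ bar l :: w <+: h.toWord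
  by_cases hh : h.toWord.head? = some (bar l)
  · obtain ⟨t, ht⟩ : ∃ t, h.toWord = bar l :: t := by
      rcases hw' : h.toWord with _ | ⟨k, t⟩
      · rw [hw'] at hh; simp at hh
      · rw [hw'] at hh
        simp only [List.head?_cons, Option.some.injEq] at hh
        exact ⟨t, by rw [hh]⟩
    rw [word_cancel ht, ht]
    simp
  · rw [word_cons hh]
    constructor
    · intro h1
      exfalso
      rcases w with _ | ⟨k, w'⟩
      · exact hw rfl
      · have h2 : k = l := by
          have := List.cons_prefix_cons.mp h1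
          exact this.1
        apply hl
        rw [h2]
        rfl
    · intro h1
      exfalso
      apply hh
      obtain ⟨t, ht⟩ := h1
      rw [← ht]
      rfl

section Pair

variable (tau : (FreeGroup (Fin d) → Lab) → (Fin d × Bool → Fin (2 * d)))

/-- a pair of configurations that agree off a cone and are generic for the colouring `tau` -/
structure PairOK (x x' : FreeGroup (Fin d) → Lab) (w : List (Fin d × Bool)) : Prop where
  i1 : ∀ v, Function.Injective (tau (sh v x))
  i2 : ∀ v, Function.Injective (tau (sh v x'))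
  c1 : ∀ v l, tau (sh (v * gen l) x) (bar l) = tau (sh v x) l
  c2 : ∀ v l, tau (sh (v * gen l) x') (bar l) = tau (sh v x') l
  r : ∀ v, tau (sh v x) ≠ tau (sh v x') → ¬ Det lam {h | v * h ∈ Cone w} tau (sh v x)

variable {tau}

theorem PairOK.step {x x' : FreeGroup (Fin d) → Lab} {w : List (Fin d × Bool)}
    (h : PairOK lam tau x x' w) {l : Fin d × Bool} (hw : w ≠ []) (hl : w.head? ≠ some l) :
    PairOK lam tau (shl l x) (shl l x') (bar l :: w) where
  i1 v := by rw [sh_shl]; exact h.i1 _
  i2 v := by rw [sh_shl]; exact h.i2 _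
  c1 v k := by rw [sh_shl, sh_shl, ← mul_assoc]; exact h.c1 _ k
  c2 v k := by rw [sh_shl, sh_shl, ← mul_assoc]; exact h.c2 _ k
  r v := by
    rw [sh_shl, sh_shl]
    intro h1
    have h2 := h.r _ h1
    have h3 : {g | v * g ∈ Cone (bar l :: w)} = {g | gen l * v * g ∈ Cone w} := by
      ext g
      show v * g ∈ Cone (bar l :: w) ↔ gen l * v * g ∈ Cone w
      rw [← cone_step hw hl, mul_assoc]
      exact Iff.rfl
    rw [h3]
    exact h2

/-- two injective maps to a set of the same size that differ at one place differ at another -/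
theorem diff_two {f g : Fin d × Bool → Fin (2 * d)} (hf : Function.Injective f)
    (hg : Function.Injective g) {a : Fin d × Bool} (h : f a ≠ g a) : ∃ b, b ≠ a ∧ f b ≠ g b := by
  have hcard : Fintype.card (Fin d × Bool) = Fintype.card (Fin (2 * d)) := by
    simp [mul_comm]
  have hfs : Function.Surjective f := ((Fintype.bijective_iff_injective_and_card f).mpr
    ⟨hf, hcard⟩).2
  obtain ⟨b, hb⟩ := hfs (g a)
  have hba : b ≠ a := fun e => h (by rw [← e] at hb ⊢; exact hb)
  refine ⟨b, hba, fun e => hba ?_⟩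
  exact hg (by rw [← e, hb])

/-- two injective maps that differ exactly at two places are related by a swap -/
theorem swap_two {f g : Fin d × Bool → Fin (2 * d)} (hf : Function.Injective f)
    (hg : Function.Injective g) {a b : Fin d × Bool} (ha : f a ≠ g a)
    (hall : ∀ k, f k ≠ g k → k = a ∨ k = b) : f b = g a := by
  have hcard : Fintype.card (Fin d × Bool) = Fintype.card (Fin (2 * d)) := by
    simp [mul_comm]
  have hfs : Function.Surjective f := ((Fintype.bijective_iff_injective_and_card f).mpr
    ⟨hf, hcard⟩).2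
  obtain ⟨k, hk⟩ := hfs (g a)
  by_cases hd : f k = g k
  · exfalso
    have : k = a := hg (by rw [← hd, hk])
    rw [this] at hk
    exact ha hk
  · rcases hall k hd with h | h
    · rw [h] at hk; exact absurd hk ha
    · rw [← h]; exact hk

theorem PairOK.two {x x' : FreeGroup (Fin d) → Lab} {w : List (Fin d × Bool)}
    (h : PairOK lam tau x x' w) {l : Fin d × Bool} (hl : tau x l ≠ tau x' l) :
    ∃ k, k ≠ l ∧ tau x k ≠ tau x' k := by
  have h1 := h.i1 1
  have h2 := h.i2 1
  rw [sh_one] at h1 h2
  exact diff_two h1 h2 hl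

theorem PairOK.cons1 {x x' : FreeGroup (Fin d) → Lab} {w : List (Fin d × Bool)}
    (h : PairOK lam tau x x' w) (l : Fin d × Bool) : tau (shl l x) (bar l) = tau x l := by
  have := h.c1 1 l
  rw [one_mul, sh_one] at this
  exact this

theorem PairOK.cons2 {x x' : FreeGroup (Fin d) → Lab} {w : List (Fin d × Bool)}
    (h : PairOK lam tau x x' w) (l : Fin d × Bool) : tau (shl l x') (bar l) = tau x' l := by
  have := h.c2 1 l
  rw [one_mul, sh_one] at this
  exact this

variable (tau)

/-- the undetermined configurations, from distance `n` on -/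
def En (n : ℕ) : Set (FreeGroup (Fin d) → Lab) :=
  {x | ∃ w : List (Fin d × Bool), w ≠ [] ∧ n ≤ w.length ∧ ¬ Det lam (Cone w) tau x}

variable {tau}

theorem En_anti {n m : ℕ} (h : n ≤ m) : En lam tau m ⊆ En lam tau n := by
  rintro x ⟨w, h1, h2, h3⟩
  exact ⟨w, h1, h.trans h2, h3⟩

theorem PairOK.mem {x x' : FreeGroup (Fin d) → Lab} {w : List (Fin d × Bool)}
    (h : PairOK lam tau x x' w) (hw : w ≠ []) {n : ℕ} (hn : n ≤ w.length)
    (hd : tau x ≠ tau x') : x ∈ En lam tau n := by
  have h1 := h.r 1
  rw [sh_one, sh_one] at h1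
  have h2 := h1 hd
  have h3 : {h : FreeGroup (Fin d) | 1 * h ∈ Cone w} = Cone w := by
    ext g; show 1 * g ∈ Cone w ↔ g ∈ Cone w; rw [one_mul]
  rw [h3] at h2
  exact ⟨w, hw, hn, h2⟩

/-- there is a reduced path with `k + 1` steps in `E`, that starts with the letter `l` -/
def Ray (E : Set (FreeGroup (Fin d) → Lab)) : ℕ → (FreeGroup (Fin d) → Lab) → Fin d × Bool → Prop
  | 0, x, l => shl l x ∈ E
  | k + 1, x, l => shl l x ∈ E ∧ ∃ l', l' ≠ bar l ∧ Ray E k (shl l x) l'

/-- infinite directions -/
def Inf (E : Set (FreeGroup (Fin d) → Lab)) (x : FreeGroup (Fin d) → Lab) (l : Fin d × Bool) :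
    Prop := ∀ k, Ray E k x l

theorem Ray.pred {E : Set (FreeGroup (Fin d) → Lab)} {k : ℕ} :
    ∀ {x : FreeGroup (Fin d) → Lab} {l : Fin d × Bool}, Ray E (k + 1) x l → Ray E k x l := by
  induction k with
  | zero => intro x l h; exact h.1
  | succ k ih =>
    intro x l h
    obtain ⟨h1, l', h2, h3⟩ := h
    exact ⟨h1, l', h2, ih h3⟩

theorem Ray.anti {E : Set (FreeGroup (Fin d) → Lab)} {k m : ℕ} (hkm : k ≤ m)
    {x : FreeGroup (Fin d) → Lab} {l : Fin d × Bool} (h : Ray E m x l) : Ray E k x l := by
  induction hkm with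
  | refl => exact h
  | step _ ih => exact ih h.pred

theorem Inf.mem {E : Set (FreeGroup (Fin d) → Lab)} {x : FreeGroup (Fin d) → Lab}
    {l : Fin d × Bool} (h : Inf E x l) : shl l x ∈ E := h 0

theorem Inf.next {E : Set (FreeGroup (Fin d) → Lab)} {x : FreeGroup (Fin d) → Lab}
    {l : Fin d × Bool} (h : Inf E x l) : ∃ l', l' ≠ bar l ∧ Inf E (shl l x) l' := by
  have h1 : ∀ k, ∃ l', l' ≠ bar l ∧ Ray E k (shl l x) l' := fun k => (h (k + 1)).2
  choose f hf using h1
  obtain ⟨l', hl'⟩ := Finite.exists_infinite_fiber f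
  have hinf : (f ⁻¹' {l'}).Infinite := Set.infinite_coe_iff.mp hl'
  refine ⟨l', ?_, ?_⟩
  · obtain ⟨k, hk⟩ := hinf.nonempty
    have := (hf k).1
    rwa [show f k = l' from hk] at this
  · intro k
    obtain ⟨m, hm, hkm⟩ := hinf.exists_gt k
    have := (hf m).2
    rw [show f m = l' from hm] at this
    exact this.anti hkm.le

theorem Inf.intro {E : Set (FreeGroup (Fin d) → Lab)} {x : FreeGroup (Fin d) → Lab}
    {l l' : Fin d × Bool} (h : shl l x ∈ E) (hl' : l' ≠ bar l) (h' : Inf E (shl l x) l') :
    Inf E x l := by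
  intro k
  cases k with
  | zero => exact h
  | succ k => exact ⟨h, l', hl', h' k⟩

/-- going back is infinite, if there was another infinite direction -/
theorem Inf.back {E : Set (FreeGroup (Fin d) → Lab)} {x : FreeGroup (Fin d) → Lab}
    {l l₂ : Fin d × Bool} (hx : x ∈ E) (hne : l₂ ≠ l) (h : Inf E x l₂) :
    Inf E (shl l x) (bar l) := by
  refine Inf.intro (l' := l₂) ?_ ?_ ?_
  · rw [shl_bar]; exact hx
  · rw [bar_bar]; exact hne
  · rw [shl_bar]; exact h

theorem PairOK.ray {n : ℕ} (k : ℕ) : ∀ {x x' : FreeGroup (Fin d) → Lab}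
    {w : List (Fin d × Bool)} (_ : PairOK lam tau x x' w) (_ : w ≠ []) (_ : n ≤ w.length)
    {l : Fin d × Bool} (_ : w.head? ≠ some l) (_ : tau x l ≠ tau x' l),
    Ray (En lam tau n) k x l := by
  induction k with
  | zero =>
    intro x x' w h hw hn l hl hd
    have hs := h.step lam hw hl
    refine hs.mem lam (by simp) (by simp; omega) ?_
    intro e
    apply hd
    rw [← h.cons1 lam l, ← h.cons2 lam l, e]
  | succ k ih =>
    intro x x' w h hw hn l hl hd
    have hs := h.step lam hw hl
    have hd' : tau (shl l x) (bar l) ≠ tau (shl l x') (bar l) := by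
      rw [h.cons1 lam l, h.cons2 lam l]; exact hd
    refine ⟨hs.mem lam (by simp) (by simp; omega) (fun e => hd' (by rw [e])), ?_⟩
    obtain ⟨l', hne, hl'⟩ := hs.two lam hd'
    refine ⟨l', hne, ih hs (by simp) (by simp; omega) ?_ hl'⟩
    simp only [List.head?_cons, ne_eq, Option.some.injEq]
    exact fun e => hne e.symm

theorem PairOK.inf {n : ℕ} {x x' : FreeGroup (Fin d) → Lab}
    {w : List (Fin d × Bool)} (h : PairOK lam tau x x' w) (hw : w ≠ []) (hn : n ≤ w.length)
    {l : Fin d × Bool} (hl : w.head? ≠ some l) (hd : tau x l ≠ tau x' l) :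
    Inf (En lam tau n) x l := fun k => h.ray lam k hw hn hl hd

end Pair

end Pool.Agent.H649S
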