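import Mathlib

/-!
Resampling of coordinates in a product space of labelings.
-/

set_option autoImplicit false
set_option linter.unusedSectionVars false

open MeasureTheory Set
open scoped ENNReal

namespace Pool.Agent.H649S

section Basic

variable {V Lab : Type} [MeasurableSpace Lab]

open Classical in
/-- labels of `y` on `A`, labels of `x` off `A` -/
noncomputable def spl (A : Set V) (x y : V → Lab) : V → Lab := fun v => if v ∈ A then y v else x v

theorem spl_of_mem {A : Set V} {x y : V → Lab} {v : V} (h : v ∈ A) : spl A x y v = y v := by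
  unfold spl; rw [if_pos h]

theorem spl_of_notMem {A : Set V} {x y : V → Lab} {v : V} (h : v ∉ A) : spl A x y v = x v := by
  unfold spl; rw [if_neg h]

theorem spl_self (A : Set V) (x : V → Lab) : spl A x x = x := by
  funext v; unfold spl; split_ifs <;> rfl

theorem spl_spl_left (A : Set V) (x y z : V → Lab) : spl A (spl A x y) z = spl A x z := by
  funext v; unfold spl; split_ifs <;> rfl

theorem spl_spl_sub {A B : Set V} (h : A ⊆ B) (x z w : V → Lab) :
    spl A (spl B x z) w = spl B x (spl A z w) := by
  funext v
  unfold spl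
  by_cases h1 : v ∈ A
  · rw [if_pos h1, if_pos (h h1), if_pos h1]
  · rw [if_neg h1]
    by_cases h2 : v ∈ B
    · rw [if_pos h2, if_pos h2, if_neg h1]
    · rw [if_neg h2, if_neg h2]

/-- relabeling along a permutation of the sites -/
def rl (e : V ≃ V) (x : V → Lab) : V → Lab := fun v => x (e v)

theorem rl_spl (e : V ≃ V) (A : Set V) (x y : V → Lab) :
    rl e (spl A x y) = spl (e ⁻¹' A) (rl e x) (rl e y) := by
  funext v
  unfold rl spl
  by_cases h : e v ∈ A
  · rw [if_pos h, if_pos (show v ∈ e ⁻¹' A from h)]
  · rw [if_neg h, if_neg (show v ∉ e ⁻¹' A from h)]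

theorem measurable_spl (A : Set V) :
    Measurable (fun p : (V → Lab) × (V → Lab) => spl A p.1 p.2) := by
  classical
  rw [measurable_pi_iff]
  intro v
  by_cases h : v ∈ A
  · have : (fun p : (V → Lab) × (V → Lab) => spl A p.1 p.2 v) = fun p => p.2 v := by
      funext p; exact spl_of_mem h
    rw [this]
    exact (measurable_pi_apply v).comp measurable_snd
  · have : (fun p : (V → Lab) × (V → Lab) => spl A p.1 p.2 v) = fun p => p.1 v := by
      funext p; exact spl_of_notMem h
    rw [this]
    exact (measurable_pi_apply v).comp measurable_fst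

theorem measurable_spl_right (A : Set V) (x : V → Lab) : Measurable (fun y => spl A x y) :=
  (measurable_spl A).comp (measurable_const.prodMk measurable_id)

theorem measurable_spl_left (A : Set V) (y : V → Lab) : Measurable (fun x => spl A x y) :=
  (measurable_spl A).comp (measurable_id.prodMk measurable_const)

theorem measurable_rl (e : V ≃ V) : Measurable (rl e : (V → Lab) → (V → Lab)) := by
  rw [measurable_pi_iff]
  intro v
  exact measurable_pi_apply (e v)

end Basic

section Meas

variable (V : Type) {Lab : Type} [MeasurableSpace Lab] (lam : Measure Lab)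
  [IsProbabilityMeasure lam]

/-- the law of independent labels -/
noncomputable def bm : Measure (V → Lab) := Measure.infinitePi (fun _ : V => lam)

instance : IsProbabilityMeasure (bm V lam) := by unfold bm; infer_instance

variable {V}

theorem rl_mp (e : V ≃ V) : MeasurePreserving (rl e) (bm V lam) (bm V lam) := by
  have key : (rl e : (V → Lab) → (V → Lab)) =
      MeasurableEquiv.piCongrLeft (fun _ : V => Lab) e.symm := by
    funext x v
    have h := Equiv.piCongrLeft_apply_apply (P := fun _ : V => Lab) e.symm x (e v)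
    rw [Equiv.symm_apply_apply] at h
    exact h.symm
  rw [key]
  exact ⟨(MeasurableEquiv.piCongrLeft _ _).measurable,
    Measure.infinitePi_map_piCongrLeft (fun _ : V => lam) e.symm⟩

theorem spl_mp (A : Set V) : MeasurePreserving
    (fun p : (V → Lab) × (V → Lab) => spl A p.1 p.2) ((bm V lam).prod (bm V lam)) (bm V lam) := by
  classical
  refine ⟨measurable_spl A, ?_⟩
  refine Measure.eq_infinitePi (fun _ : V => lam) ?_
  intro s t ht
  rw [Measure.map_apply (measurable_spl A) (MeasurableSet.pi s.countable_toSet fun i _ => ht i)]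
  have hpre : (fun p : (V → Lab) × (V → Lab) => spl A p.1 p.2) ⁻¹' (Set.pi (s : Set V) t) =
      (Set.pi ((s.filter (fun v => v ∉ A) : Finset V) : Set V) t) ×ˢ
      (Set.pi ((s.filter (fun v => v ∈ A) : Finset V) : Set V) t) := by
    ext p
    simp only [mem_preimage, Set.mem_pi, mem_prod, Finset.mem_coe, Finset.mem_filter]
    constructor
    · intro h
      refine ⟨fun i hi => ?_, fun i hi => ?_⟩
      · have := h i hi.1
        rwa [spl_of_notMem hi.2] at this
      · have := h i hi.1
        rwa [spl_of_mem hi.2] at this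
    · rintro ⟨h1, h2⟩ i hi
      by_cases hA : i ∈ A
      · rw [spl_of_mem hA]; exact h2 i ⟨hi, hA⟩
      · rw [spl_of_notMem hA]; exact h1 i ⟨hi, hA⟩
  rw [hpre, Measure.prod_prod]
  unfold bm
  rw [Measure.infinitePi_pi _ (fun i _ => ht i), Measure.infinitePi_pi _ (fun i _ => ht i)]
  rw [mul_comm]
  exact Finset.prod_filter_mul_prod_filter_not s (fun v => v ∈ A) _

/-- a statement that holds after almost every resampling holds almost surely -/
theorem ae_of_spl (A : Set V) {P : (V → Lab) → Prop} (hP : MeasurableSet {x | P x})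
    (h : ∀ x, ∀ᵐ y ∂(bm V lam), P (spl A x y)) : ∀ᵐ x ∂(bm V lam), P x := by
  have h1 : ∀ᵐ p ∂((bm V lam).prod (bm V lam)), P (spl A p.1 p.2) := by
    rw [Measure.ae_prod_iff_ae_ae]
    · exact Filter.Eventually.of_forall h
    · exact (measurable_spl A) hP
  have h2 := (spl_mp lam A).map_eq
  rw [← h2, ae_map_iff (measurable_spl A).aemeasurable hP]
  exact h1

/-- an almost sure statement holds after almost every resampling -/
theorem ae_spl (A : Set V) {P : (V → Lab) → Prop} (h : ∀ᵐ x ∂(bm V lam), P x) :
    ∀ᵐ x ∂(bm V lam), ∀ᵐ y ∂(bm V lam), P (spl A x y) := by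
  have h1 : ∀ᵐ p ∂((bm V lam).prod (bm V lam)), P (spl A p.1 p.2) :=
    (spl_mp lam A).quasiMeasurePreserving.ae h
  exact Measure.ae_ae_of_ae_prod h1

theorem ae_rl (e : V ≃ V) {P : (V → Lab) → Prop} (h : ∀ᵐ x ∂(bm V lam), P x) :
    ∀ᵐ x ∂(bm V lam), P (rl e x) :=
  (rl_mp lam e).quasiMeasurePreserving.ae h

end Meas

end Pool.Agent.H649S
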