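import Pool.Agent.H649S.Ineq

/-!
The first undetermined set has measure at least one half.
-/

set_option autoImplicit false
set_option linter.unusedSectionVars false

open MeasureTheory Set
open scoped ENNReal

namespace Pool.Agent.H649S

variable {d : ℕ} {Lab : Type} [MeasurableSpace Lab] (lam : Measure Lab) [IsProbabilityMeasure lam]
variable {tau : (FreeGroup (Fin d) → Lab) → (Fin d × Bool → Fin (2 * d))}

theorem Col.half (h : Col lam tau) (l : Fin d × Bool) (j : Fin (2 * d)) :
    (bm (FreeGroup (Fin d)) lam).real {x | tau x l = j} ≤ 1 / 2 := by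
  set mu := bm (FreeGroup (Fin d)) lam with hmu
  have e1 : mu {x | tau x l = j} = mu {x | tau x (bar l) = j} := by
    rw [← (shl_mp lam l).measure_preimage (h.mval lam (bar l) j).nullMeasurableSet]
    apply measure_congr
    filter_upwards [h.cons] with x hx
    apply propext
    show tau x l = j ↔ tau (shl l x) (bar l) = j
    rw [hx l]
  have e2 : mu ({x | tau x l = j} ∪ {x | tau x (bar l) = j}) =
      mu {x | tau x l = j} + mu {x | tau x (bar l) = j} := by
    apply measure_union₀ (h.mval lam (bar l) j).nullMeasurableSet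
    have h2 : mu ({x | tau x l = j} ∩ {x | tau x (bar l) = j}) = 0 := by
      rw [measure_eq_zero_iff_ae_notMem]
      filter_upwards [h.inj] with y hy hh
      have := hy (hh.1.trans hh.2.symm)
      exact bar_ne l this.symm
    exact h2
  have e3 : mu.real {x | tau x l = j} + mu.real {x | tau x (bar l) = j} ≤ 1 := by
    have h3 : mu.real ({x | tau x l = j} ∪ {x | tau x (bar l) = j}) =
        mu.real {x | tau x l = j} + mu.real {x | tau x (bar l) = j} := by
      unfold Measure.real
      rw [e2, ENNReal.toReal_add (by finiteness) (by finiteness)]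
    rw [← h3]
    exact measureReal_le_one
  have e4 : mu.real {x | tau x (bar l) = j} = mu.real {x | tau x l = j} := by
    unfold Measure.real; rw [e1]
  linarith

theorem spl_compl (A : Set (FreeGroup (Fin d))) (x y : FreeGroup (Fin d) → Lab) :
    spl Aᶜ y x = spl A x y := by
  funext v
  by_cases h : v ∈ A
  · have h2 : v ∉ Aᶜ := fun h' => h' h
    rw [spl_of_mem h, spl_of_notMem h2]
  · have h2 : v ∈ Aᶜ := h
    rw [spl_of_notMem h, spl_of_mem h2]

theorem cone_one_compl (l : Fin d × Bool) :
    {h | gen l * h ∈ (Cone [l])ᶜ} = Cone [bar l] := by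
  ext h
  show ¬ ([l] <+: (gen l * h).toWord) ↔ [bar l] <+: h.toWord
  have key : ∀ (k : Fin d × Bool) (w : List (Fin d × Bool)), [k] <+: w ↔ w.head? = some k := by
    intro k w
    rcases w with _ | ⟨a, t⟩
    · simp
    · rw [List.cons_prefix_cons]
      simp [eq_comm]
  rw [key, key]
  constructor
  · intro h1
    rcases head_alt l h with h2 | h2
    · exact h2
    · exact absurd h2 h1
  · intro h1 h2
    obtain ⟨t, ht⟩ : ∃ t, h.toWord = bar l :: t := by
      rcases hw' : h.toWord with _ | ⟨k, t⟩
      · rw [hw'] at h1; simp at h1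
      · rw [hw'] at h1
        simp only [List.head?_cons, Option.some.injEq] at h1
        exact ⟨t, by rw [h1]⟩
    rw [word_cancel ht] at h2
    rcases t with _ | ⟨k, t⟩
    · simp at h2
    · simp only [List.head?_cons, Option.some.injEq] at h2
      have := toWord_reduced h ht
      rw [bar_bar] at this
      exact this h2

theorem Col.start (h : Col lam tau) (hd : 1 ≤ d) :
    1 / 2 ≤ (bm (FreeGroup (Fin d)) lam).real (En lam tau 1) := by
  by_contra hcon
  rw [not_le] at hcon
  set mu := bm (FreeGroup (Fin d)) lam with hmu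
  let l : Fin d × Bool := (⟨0, hd⟩, true)
  let f : (FreeGroup (Fin d) → Lab) → Fin (2 * d) := fun x => tau x l
  have hf : Measurable f := (measurable_pi_apply l).comp h.meas
  have hEc : 1 / 2 < mu.real (En lam tau 1)ᶜ := by
    have := probReal_compl_eq_one_sub (μ := mu) (h.mEn lam 1)
    linarith
  have hin : ∀ k : Fin d × Bool, (En lam tau 1)ᶜ ⊆ {x | Det lam (Cone [k]) tau x} := by
    intro k x hx
    by_contra hk
    exact hx ⟨[k], by simp, by simp, hk⟩
  -- determined from outside the cone
  have hD1 : (En lam tau 1)ᶜ ⊆ {x | Det lam (Cone [l]) f x} := by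
    intro x hx
    obtain ⟨c, hc⟩ := hin l hx
    refine ⟨c l, ?_⟩
    filter_upwards [hc] with y hy
    show tau _ l = c l
    rw [hy]
  -- determined from inside the cone
  have hD2 : ∀ᵐ x ∂mu, Det lam (Cone [bar l]) tau (shl l x) → Det lam (Cone [l])ᶜ f x := by
    have h1 := ae_spl lam (Cone [l])ᶜ h.cons
    filter_upwards [h1] with x hx hDet
    obtain ⟨c, hc⟩ := hDet
    refine ⟨c (bar l), ?_⟩
    have h2 := ae_shl lam l hc
    filter_upwards [hx, h2] with z hz h2
    have h3 : shl l (spl (Cone [l])ᶜ x z) = spl {h | gen l * h ∈ (Cone [l])ᶜ} (shl l x) (shl l z) :=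
      rl_spl _ _ _ _
    rw [cone_one_compl] at h3
    show tau (spl (Cone [l])ᶜ x z) l = c (bar l)
    rw [← hz l, h3, h2]
  have hD2' : ∃ᶠ y in ae mu, Det lam (Cone [l])ᶜ f y := by
    intro h1
    have h2 : ∀ᵐ x ∂mu, ¬ (x ∈ shl l ⁻¹' (En lam tau 1)ᶜ) := by
      filter_upwards [h1, hD2] with x h1 h2 h3
      exact h1 (h2 (hin (bar l) h3))
    have h3 : mu (shl l ⁻¹' (En lam tau 1)ᶜ) = 0 := by
      rw [measure_eq_zero_iff_ae_notMem]
      exact h2
    rw [(shl_mp lam l).measure_preimage (h.mEn lam 1).compl.nullMeasurableSet] at h3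
    have h4 : mu.real (En lam tau 1)ᶜ = 0 := by
      unfold Measure.real
      rw [h3]; rfl
    linarith
  -- values
  have v2 := det_value lam (Cone [l])ᶜ hf
  have v1 := det_value lam (Cone [l]) hf
  have v1' : ∀ᵐ y ∂mu, ∀ᵐ x ∂mu, (Det lam (Cone [l]) f x → f (spl (Cone [l]) x y) = f x) := by
    have hM : MeasurableSet {p : (FreeGroup (Fin d) → Lab) × (FreeGroup (Fin d) → Lab) |
        Det lam (Cone [l]) f p.1 → f (spl (Cone [l]) p.1 p.2) = f p.1} := by
      have m1 : Measurable fun p : (FreeGroup (Fin d) → Lab) × (FreeGroup (Fin d) → Lab) =>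
          f (spl (Cone [l]) p.1 p.2) := hf.comp (measurable_spl _)
      have m2 : Measurable fun p : (FreeGroup (Fin d) → Lab) × (FreeGroup (Fin d) → Lab) =>
          f p.1 := hf.comp measurable_fst
      have m3 : MeasurableSet {p : (FreeGroup (Fin d) → Lab) × (FreeGroup (Fin d) → Lab) |
          Det lam (Cone [l]) f p.1} := measurable_fst (measurableSet_det lam (Cone [l]) hf)
      have m4 : MeasurableSet {p : (FreeGroup (Fin d) → Lab) × (FreeGroup (Fin d) → Lab) |
          f (spl (Cone [l]) p.1 p.2) = f p.1} := measurableSet_eq_fun m1 m2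
      have : {p : (FreeGroup (Fin d) → Lab) × (FreeGroup (Fin d) → Lab) |
          Det lam (Cone [l]) f p.1 → f (spl (Cone [l]) p.1 p.2) = f p.1} =
          {p | Det lam (Cone [l]) f p.1}ᶜ ∪ {p | f (spl (Cone [l]) p.1 p.2) = f p.1} := by
        ext p
        show (Det lam (Cone [l]) f p.1 → _) ↔ (¬ Det lam (Cone [l]) f p.1 ∨ _)
        rw [imp_iff_not_or]
        exact Iff.rfl
      rw [this]
      exact m3.compl.union m4
    rw [← Measure.ae_ae_comm hM]
    filter_upwards [v1] with x hx
    by_cases hD : Det lam (Cone [l]) f x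
    · filter_upwards [hx hD] with y hy _
      exact hy
    · exact Filter.Eventually.of_forall fun y hy => absurd hy hD
  obtain ⟨y, hy, hy1, hy2⟩ := (hD2'.and_eventually (v1'.and v2)).exists
  have hy3 := hy2 hy
  have h5 : ∀ᵐ x ∂mu, x ∈ (En lam tau 1)ᶜ → x ∈ {x | tau x l = f y} := by
    filter_upwards [hy1, hy3] with x hx1 hx2 hx3
    have h6 := hx1 (hD1 hx3)
    rw [spl_compl] at hx2
    show f x = f y
    rw [← h6, hx2]
  have h6 : mu.real (En lam tau 1)ᶜ ≤ mu.real {x | tau x l = f y} :=
    ENNReal.toReal_mono (by finiteness) (measure_mono_ae h5)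
  have h7 := h.half lam l (f y)
  linarith

end Pool.Agent.H649S
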